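import Mathlib

/-!
# Values of integral polynomials near rational points

The height of an integral polynomial, elementary bounds for values and differences of values, values
at rational points, division by a linear factor, and factors of monic polynomials.
-/

set_option autoImplicit false

namespace Pool.Agent.Q271.UA

open Polynomial

/-- the height (largest absolute value of the coefficients) of an integral polynomial -/
def height (P : ℤ[X]) : ℕ := P.support.sup fun i => (P.coeff i).natAbs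

lemma natAbs_coeff_le (P : ℤ[X]) (i : ℕ) : (P.coeff i).natAbs ≤ height P := by
  by_cases h : i ∈ P.support
  · exact Finset.le_sup (f := fun i => (P.coeff i).natAbs) h
  · rw [notMem_support_iff.1 h]; simp

lemma abs_coeff_le (P : ℤ[X]) (i : ℕ) : |(P.coeff i : ℝ)| ≤ height P := by
  have := natAbs_coeff_le P i
  rw [← Int.cast_abs, Int.abs_eq_natAbs]
  exact_mod_cast this

lemma height_le_of {P : ℤ[X]} {B : ℝ} (hB : 0 ≤ B) (h : ∀ i, |(P.coeff i : ℝ)| ≤ B) :
    (height P : ℝ) ≤ B := by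
  by_cases hP : P = 0
  · subst hP; simpa [height] using hB
  · obtain ⟨i, -, hi⟩ := Finset.exists_mem_eq_sup P.support
      (by rw [Finset.nonempty_iff_ne_empty, Ne, support_eq_empty]; exact hP)
      (fun i => (P.coeff i).natAbs)
    unfold height
    rw [hi, Nat.cast_natAbs]
    push_cast
    exact h i

lemma one_le_height {P : ℤ[X]} (hP : P ≠ 0) : 1 ≤ height P := by
  have h1 := natAbs_coeff_le P P.natDegree
  have h2 : P.coeff P.natDegree ≠ 0 := by rw [coeff_natDegree]; exact leadingCoeff_ne_zero.2 hP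
  have h3 := Int.natAbs_pos.2 h2
  omega

lemma one_le_height' {P : ℤ[X]} (hP : P ≠ 0) : (1 : ℝ) ≤ height P := by
  exact_mod_cast one_le_height hP

/-- only finitely many polynomials have bounded degree and height -/
lemma finite_height_le (n B : ℕ) : {P : ℤ[X] | P.natDegree ≤ n ∧ height P ≤ B}.Finite := by
  have hfin : (Set.univ.pi fun _ : Fin (n + 1) => Set.Icc (-(B : ℤ)) B).Finite :=
    Set.Finite.pi fun _ => Set.finite_Icc _ _
  refine Set.Finite.of_finite_image (f := fun P : ℤ[X] => fun i : Fin (n + 1) => P.coeff i)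
    (hfin.subset ?_) ?_
  · rintro _ ⟨P, ⟨-, h2⟩, rfl⟩ i -
    have h3 := natAbs_coeff_le P i
    simp only [Set.mem_Icc]
    omega
  · rintro P ⟨hP, -⟩ Q ⟨hQ, -⟩ h
    ext i
    by_cases hi : i ≤ n
    · exact congrFun h ⟨i, by omega⟩
    · rw [coeff_eq_zero_of_natDegree_lt (by omega), coeff_eq_zero_of_natDegree_lt (by omega)]

/-- a constant which depends only on the degree -/
def K (n : ℕ) : ℝ := ∑ i ∈ Finset.range (n + 1), (i : ℝ) ^ 2 * 2 ^ i + 1

lemma K_pos (n : ℕ) : 1 ≤ K n := by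
  unfold K
  have : 0 ≤ ∑ i ∈ Finset.range (n + 1), (i : ℝ) ^ 2 * 2 ^ i :=
    Finset.sum_nonneg fun i _ => by positivity
  linarith

lemma norm_pow_sub_pow_le (x y : ℂ) (hx : ‖x‖ ≤ 2) (hy : ‖y‖ ≤ 2) (i : ℕ) :
    ‖x ^ i - y ^ i‖ ≤ i * 2 ^ i * ‖x - y‖ := by
  induction i with
  | zero => simp
  | succ i ih =>
    have e : x ^ (i + 1) - y ^ (i + 1) = x * (x ^ i - y ^ i) + (x - y) * y ^ i := by ring
    rw [e]
    refine (norm_add_le _ _).trans ?_
    rw [norm_mul, norm_mul, norm_pow]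
    have h1 : ‖y‖ ^ i ≤ 2 ^ i := pow_le_pow_left₀ (norm_nonneg _) hy i
    have h2 : ‖x‖ * ‖x ^ i - y ^ i‖ ≤ 2 * (i * 2 ^ i * ‖x - y‖) :=
      mul_le_mul hx ih (norm_nonneg _) (by norm_num)
    have h3 : ‖x - y‖ * ‖y‖ ^ i ≤ ‖x - y‖ * 2 ^ i := mul_le_mul_of_nonneg_left h1 (norm_nonneg _)
    have h4 : ‖x - y‖ * (2 : ℝ) ^ i ≤ ‖x - y‖ * (2 * 2 ^ i) := by
      apply mul_le_mul_of_nonneg_left _ (norm_nonneg _)
      have : (0 : ℝ) < 2 ^ i := by positivity
      linarith
    push_cast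
    calc _ ≤ 2 * (i * 2 ^ i * ‖x - y‖) + ‖x - y‖ * (2 * 2 ^ i) := by linarith
      _ = _ := by ring

lemma abs_coeff_le' (P : ℤ[X]) (i : ℕ) : ‖(P.coeff i : ℂ)‖ ≤ height P := by
  have := abs_coeff_le P i
  rwa [← Complex.ofReal_intCast, Complex.norm_real, Real.norm_eq_abs]

lemma aeval_eq_sum {A : Type} [CommRing A] (P : ℤ[X]) {n : ℕ} (hn : P.natDegree ≤ n) (x : A) :
    aeval x P = ∑ i ∈ Finset.range (n + 1), (P.coeff i : A) * x ^ i := by
  rw [aeval_eq_sum_range' (show P.natDegree < n + 1 by omega)]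
  exact Finset.sum_congr rfl fun i _ => by rw [zsmul_eq_mul]

/-- values at close points are close -/
lemma norm_sub_le (P : ℤ[X]) {n : ℕ} (hn : P.natDegree ≤ n) (x y : ℂ) (hx : ‖x‖ ≤ 2) (hy : ‖y‖ ≤ 2) :
    ‖aeval x P - aeval y P‖ ≤ K n * height P * ‖x - y‖ := by
  rw [aeval_eq_sum P hn, aeval_eq_sum P hn, ← Finset.sum_sub_distrib]
  calc ‖∑ i ∈ Finset.range (n + 1), ((P.coeff i : ℂ) * x ^ i - (P.coeff i : ℂ) * y ^ i)‖
      ≤ ∑ i ∈ Finset.range (n + 1), (i : ℝ) ^ 2 * 2 ^ i * (height P * ‖x - y‖) := by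
        apply norm_sum_le_of_le
        intro i _
        rw [← mul_sub, norm_mul]
        calc ‖(P.coeff i : ℂ)‖ * ‖x ^ i - y ^ i‖
            ≤ height P * (i * 2 ^ i * ‖x - y‖) :=
              mul_le_mul (abs_coeff_le' P i) (norm_pow_sub_pow_le x y hx hy i) (norm_nonneg _)
                (Nat.cast_nonneg _)
          _ = i * (2 ^ i * (height P * ‖x - y‖)) := by ring
          _ ≤ (i : ℝ) ^ 2 * (2 ^ i * (height P * ‖x - y‖)) := by
              apply mul_le_mul_of_nonneg_right _ (by positivity)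
              rcases Nat.eq_zero_or_pos i with h | h
              · subst h; simp
              · have : (1 : ℝ) ≤ i := by exact_mod_cast h
                nlinarith
          _ = _ := by ring
    _ = (∑ i ∈ Finset.range (n + 1), (i : ℝ) ^ 2 * 2 ^ i) * (height P * ‖x - y‖) := by
        rw [Finset.sum_mul]
    _ ≤ K n * (height P * ‖x - y‖) := by
        apply mul_le_mul_of_nonneg_right _ (by positivity)
        unfold K; linarith
    _ = _ := by ring

lemma aeval_ofReal (P : ℤ[X]) (x : ℝ) : aeval (x : ℂ) P = ((aeval x P : ℝ) : ℂ) := by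
  rw [aeval_eq_sum P le_rfl, aeval_eq_sum P le_rfl]
  push_cast
  rfl

lemma abs_sub_le (P : ℤ[X]) {n : ℕ} (hn : P.natDegree ≤ n) (x y : ℝ) (hx : |x| ≤ 2) (hy : |y| ≤ 2) :
    |aeval x P - aeval y P| ≤ K n * height P * |x - y| := by
  have h := norm_sub_le P hn (x : ℂ) (y : ℂ) (by rwa [Complex.norm_real, Real.norm_eq_abs])
    (by rwa [Complex.norm_real, Real.norm_eq_abs])
  rw [aeval_ofReal, aeval_ofReal, ← Complex.ofReal_sub, ← Complex.ofReal_sub, Complex.norm_real,
    Complex.norm_real, Real.norm_eq_abs, Real.norm_eq_abs] at h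
  exact h

/-- Taylor's formula for powers -/
lemma abs_taylor_pow (x y : ℝ) (hx : |x| ≤ 2) (hy : |y| ≤ 2) (i : ℕ) :
    |x ^ i - y ^ i - i * y ^ (i - 1) * (x - y)| ≤ (i : ℝ) ^ 2 * 2 ^ i * |x - y| ^ 2 := by
  induction i with
  | zero => simp
  | succ i ih =>
    have e : x ^ (i + 1) - y ^ (i + 1) - ((i + 1 : ℕ) : ℝ) * y ^ (i + 1 - 1) * (x - y) =
        x * (x ^ i - y ^ i - i * y ^ (i - 1) * (x - y)) + i * y ^ (i - 1) * (x - y) ^ 2 := by
      rcases Nat.eq_zero_or_pos i with h | h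
      · subst h; simp
      · obtain ⟨j, rfl⟩ : ∃ j, i = j + 1 := ⟨i - 1, by omega⟩
        simp only [Nat.add_sub_cancel]
        push_cast
        ring
    rw [e]
    refine (abs_add_le _ _).trans ?_
    rw [abs_mul, abs_mul, abs_mul, abs_pow, abs_pow, Nat.abs_cast]
    have h1 : |y| ^ (i - 1) ≤ 2 ^ (i + 1) :=
      (pow_le_pow_left₀ (abs_nonneg _) hy _).trans (pow_le_pow_right₀ (by norm_num) (by omega))
    have h2 : |x| * |x ^ i - y ^ i - i * y ^ (i - 1) * (x - y)| ≤
        2 * ((i : ℝ) ^ 2 * 2 ^ i * |x - y| ^ 2) := mul_le_mul hx ih (abs_nonneg _) (by norm_num)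
    have h3 : (i : ℝ) * |y| ^ (i - 1) * |x - y| ^ 2 ≤ i * 2 ^ (i + 1) * |x - y| ^ 2 := by gcongr
    have h4 : (0 : ℝ) ≤ 2 ^ i * |x - y| ^ 2 := by positivity
    have h5 : (0 : ℝ) ≤ (i : ℝ) := Nat.cast_nonneg i
    push_cast
    calc _ ≤ 2 * ((i : ℝ) ^ 2 * 2 ^ i * |x - y| ^ 2) + i * 2 ^ (i + 1) * |x - y| ^ 2 := by linarith
      _ = (2 * (i : ℝ) ^ 2 + 2 * i) * (2 ^ i * |x - y| ^ 2) := by ring
      _ ≤ (2 * ((i : ℝ) + 1) ^ 2) * (2 ^ i * |x - y| ^ 2) := by
          apply mul_le_mul_of_nonneg_right _ h4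
          nlinarith
      _ = _ := by ring

lemma aeval_derivative (P : ℤ[X]) {n : ℕ} (hn : P.natDegree ≤ n) (y : ℝ) :
    aeval y (derivative P) = ∑ i ∈ Finset.range (n + 1), (P.coeff i : ℝ) * (i * y ^ (i - 1)) := by
  rw [derivative_eval_aux P hn y]
where
  derivative_eval_aux (P : ℤ[X]) {n : ℕ} (hn : P.natDegree ≤ n) (y : ℝ) :
    aeval y (derivative P) = ∑ i ∈ Finset.range (n + 1), (P.coeff i : ℝ) * (i * y ^ (i - 1)) := by
    conv_lhs => rw [P.as_sum_range' (n + 1) (by omega)]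
    rw [derivative_sum, map_sum]
    apply Finset.sum_congr rfl
    intro i _
    rw [derivative_monomial, aeval_monomial]
    simp
    ring

lemma abs_taylor (P : ℤ[X]) {n : ℕ} (hn : P.natDegree ≤ n) (x y : ℝ) (hx : |x| ≤ 2) (hy : |y| ≤ 2) :
    |aeval x P - aeval y P - aeval y (derivative P) * (x - y)| ≤ K n * height P * |x - y| ^ 2 := by
  rw [aeval_eq_sum P hn, aeval_eq_sum P hn, aeval_derivative P hn, ← Finset.sum_sub_distrib,
    Finset.sum_mul, ← Finset.sum_sub_distrib]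
  calc |∑ i ∈ Finset.range (n + 1), ((P.coeff i : ℝ) * x ^ i - (P.coeff i : ℝ) * y ^ i -
        (P.coeff i : ℝ) * (i * y ^ (i - 1)) * (x - y))|
      ≤ ∑ i ∈ Finset.range (n + 1), (i : ℝ) ^ 2 * 2 ^ i * (height P * |x - y| ^ 2) := by
        refine (Finset.abs_sum_le_sum_abs _ _).trans (Finset.sum_le_sum fun i _ => ?_)
        rw [show (P.coeff i : ℝ) * x ^ i - (P.coeff i : ℝ) * y ^ i -
          (P.coeff i : ℝ) * (i * y ^ (i - 1)) * (x - y) =
          (P.coeff i : ℝ) * (x ^ i - y ^ i - i * y ^ (i - 1) * (x - y)) by ring, abs_mul]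
        calc _ ≤ (height P : ℝ) * ((i : ℝ) ^ 2 * 2 ^ i * |x - y| ^ 2) :=
              mul_le_mul (abs_coeff_le P i) (abs_taylor_pow x y hx hy i) (abs_nonneg _)
                (Nat.cast_nonneg _)
          _ = _ := by ring
    _ = (∑ i ∈ Finset.range (n + 1), (i : ℝ) ^ 2 * 2 ^ i) * (height P * |x - y| ^ 2) := by
        rw [Finset.sum_mul]
    _ ≤ K n * (height P * |x - y| ^ 2) := by
        apply mul_le_mul_of_nonneg_right _ (by positivity)
        unfold K; linarith
    _ = _ := by ring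

lemma abs_derivative_le (P : ℤ[X]) {n : ℕ} (hn : P.natDegree ≤ n) (y : ℝ) (hy : |y| ≤ 2) :
    |aeval y (derivative P)| ≤ K n * height P := by
  rw [aeval_derivative P hn]
  calc |∑ i ∈ Finset.range (n + 1), (P.coeff i : ℝ) * (i * y ^ (i - 1))|
      ≤ ∑ i ∈ Finset.range (n + 1), (i : ℝ) ^ 2 * 2 ^ i * height P := by
        refine (Finset.abs_sum_le_sum_abs _ _).trans (Finset.sum_le_sum fun i _ => ?_)
        rw [abs_mul, abs_mul, abs_pow, Nat.abs_cast]
        have h1 : |y| ^ (i - 1) ≤ 2 ^ i :=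
          (pow_le_pow_left₀ (abs_nonneg _) hy _).trans (pow_le_pow_right₀ (by norm_num) (by omega))
        have h2 : (i : ℝ) ≤ (i : ℝ) ^ 2 := by
          rcases Nat.eq_zero_or_pos i with h | h
          · subst h; simp
          · have : (1 : ℝ) ≤ i := by exact_mod_cast h
            nlinarith
        calc |(P.coeff i : ℝ)| * (i * |y| ^ (i - 1)) ≤ height P * ((i : ℝ) ^ 2 * 2 ^ i) := by
              apply mul_le_mul (abs_coeff_le P i) _ (by positivity) (Nat.cast_nonneg _)
              exact mul_le_mul h2 h1 (by positivity) (by positivity)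
          _ = _ := by ring
    _ = (∑ i ∈ Finset.range (n + 1), (i : ℝ) ^ 2 * 2 ^ i) * height P := by rw [Finset.sum_mul]
    _ ≤ K n * height P := by
        apply mul_le_mul_of_nonneg_right _ (Nat.cast_nonneg _)
        unfold K; linarith

/-- the numerator of the value at `p / q` -/
def num (P : ℤ[X]) (d : ℕ) (p q : ℤ) : ℤ :=
  ∑ i ∈ Finset.range (d + 1), P.coeff i * p ^ i * q ^ (d - i)

lemma num_eq (P : ℤ[X]) {d : ℕ} (hd : P.natDegree ≤ d) (p q : ℤ) (hq : q ≠ 0) :
    (num P d p q : ℝ) = (q : ℝ) ^ d * aeval ((p : ℝ) / q) P := by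
  have hq' : (q : ℝ) ≠ 0 := by exact_mod_cast hq
  rw [aeval_eq_sum P hd, Finset.mul_sum]
  unfold num
  push_cast
  apply Finset.sum_congr rfl
  intro i hi
  rw [Finset.mem_range] at hi
  obtain ⟨j, rfl⟩ : ∃ j, d = i + j := ⟨d - i, by omega⟩
  rw [Nat.add_sub_cancel_left, pow_add, div_pow]
  field_simp

lemma num_modEq (P : ℤ[X]) (d : ℕ) (p q : ℤ) : q ∣ num P d p q - P.coeff d * p ^ d := by
  unfold num
  rw [Finset.sum_range_succ, Nat.sub_self, pow_zero, mul_one, add_sub_cancel_right]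
  apply Finset.dvd_sum
  intro i hi
  rw [Finset.mem_range] at hi
  obtain ⟨j, hj⟩ : ∃ j, d - i = j + 1 := ⟨d - i - 1, by omega⟩
  rw [hj, pow_succ]
  exact ⟨P.coeff i * p ^ i * q ^ j, by ring⟩

/-- a nonzero value at `p / q` is at least `q ^ (-d)` -/
lemma inv_pow_le (P : ℤ[X]) {d : ℕ} (hd : P.natDegree ≤ d) (p q : ℕ) (hq : 0 < q)
    (h : aeval ((p : ℝ) / q) P ≠ 0) : ((q : ℝ) ^ d)⁻¹ ≤ |aeval ((p : ℝ) / q) P| := by
  have hqR : (0 : ℝ) < q := by exact_mod_cast hq
  have h1 := num_eq P hd (p : ℤ) (q : ℤ) (by exact_mod_cast hq.ne')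
  push_cast at h1
  have h2 : num P d p q ≠ 0 := by
    intro h0
    rw [h0, Int.cast_zero] at h1
    rcases mul_eq_zero.1 h1.symm with h3 | h3
    · exact (pow_ne_zero _ hqR.ne') h3
    · exact h h3
  have h3 : (1 : ℝ) ≤ |(num P d p q : ℝ)| := by
    rw [← Int.cast_abs]; exact_mod_cast Int.one_le_abs h2
  rw [h1, abs_mul, abs_pow, abs_of_pos hqR] at h3
  rw [inv_le_iff_one_le_mul₀ (by positivity)]
  linarith

/-- the linear polynomial `q X - p` -/
noncomputable def lin (p q : ℕ) : ℤ[X] := C (q : ℤ) * X - C (p : ℤ)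

lemma lin_coeff (p q i : ℕ) : (lin p q).coeff i = if i = 1 then (q : ℤ) else
    if i = 0 then -(p : ℤ) else 0 := by
  unfold lin
  rw [coeff_sub, coeff_C_mul, coeff_X, coeff_C]
  rcases i with _ | _ | i <;> simp

lemma lin_natDegree (p q : ℕ) (hq : 0 < q) : (lin p q).natDegree = 1 := by
  have h : lin p q = C (q : ℤ) * X + C (-(p : ℤ)) := by unfold lin; rw [C_neg]; ring
  rw [h]
  exact natDegree_linear (by exact_mod_cast hq.ne')

lemma lin_ne_zero (p q : ℕ) (hq : 0 < q) : lin p q ≠ 0 := by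
  intro h
  have := lin_natDegree p q hq
  rw [h] at this
  simp at this

lemma aeval_lin {A : Type} [CommRing A] (p q : ℕ) (x : A) : aeval x (lin p q) = q * x - p := by
  unfold lin; simp

lemma lin_isPrimitive {p q : ℕ} (h : Nat.Coprime p q) : (lin p q).IsPrimitive := by
  rw [isPrimitive_iff_isUnit_of_C_dvd]
  intro r hr
  rw [C_dvd_iff_dvd_coeff] at hr
  have h0 := hr 0
  have h1 := hr 1
  rw [lin_coeff] at h0 h1
  simp at h0 h1
  have : r ∣ (Int.gcd p q : ℤ) := Int.dvd_coe_gcd h0 h1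
  rw [Int.gcd_natCast_natCast, h] at this
  exact isUnit_of_dvd_one (by simpa using this)

lemma lin_irreducible {p q : ℕ} (hq : 0 < q) (h : Nat.Coprime p q) : Irreducible (lin p q) := by
  have hp := lin_isPrimitive h
  rw [Polynomial.IsPrimitive.Int.irreducible_iff_irreducible_map_cast hp]
  apply irreducible_of_degree_eq_one
  rw [degree_map_eq_of_injective (Int.castRingHom ℚ).injective_int,
    degree_eq_natDegree (lin_ne_zero p q hq), lin_natDegree p q hq]
  rfl

/-- a polynomial which vanishes at `p / q` is a multiple of `q X - p` -/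
lemma exists_factor (P : ℤ[X]) {p q : ℕ} (hq : 0 < q) (hc : Nat.Coprime p q)
    (h : aeval ((p : ℝ) / q) P = 0) : ∃ R : ℤ[X], P = lin p q * R := by
  have h1 : aeval ((p : ℚ) / q) P = 0 := by
    have h2 : ((aeval ((p : ℚ) / q) P : ℚ) : ℝ) = aeval ((p : ℝ) / q) P := by
      rw [aeval_eq_sum P le_rfl, aeval_eq_sum P le_rfl]
      push_cast
      rfl
    rw [h] at h2
    exact_mod_cast h2
  have hq' : (q : ℚ) ≠ 0 := by exact_mod_cast hq.ne'
  apply (lin_isPrimitive hc).dvd_of_fraction_map_dvd_fraction_map (K := ℚ)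
  have h3 : (lin p q).map (algebraMap ℤ ℚ) = C (q : ℚ) * (X - C ((p : ℚ) / q)) := by
    unfold lin
    rw [Polynomial.map_sub, Polynomial.map_mul, map_C, map_X, map_C, mul_sub, ← C_mul]
    congr 2
    field_simp
    simp
  rw [h3]
  rw [(isUnit_C.2 (IsUnit.mk0 _ hq')).mul_left_dvd, dvd_iff_isRoot, IsRoot.def, eval_map_algebraMap]
  exact h1

/-- the quotient by `q X - p`, `p ≤ q / 2`, is smaller -/
lemma height_factor {p q : ℕ} (hq : 0 < q) (hpq : 2 * p ≤ q) (R : ℤ[X]) :
    (q : ℝ) * height R ≤ 2 * height (lin p q * R) := by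
  have hqR : (0 : ℝ) < q := by exact_mod_cast hq
  have hpR : 2 * (p : ℝ) ≤ q := by exact_mod_cast hpq
  have key : ∀ i, (q : ℝ) * |(R.coeff i : ℝ)| ≤ height (lin p q * R) + q / 2 * height R := by
    intro i
    have h1 : (lin p q * R).coeff (i + 1) = q * R.coeff i - p * R.coeff (i + 1) := by
      unfold lin
      rw [sub_mul, coeff_sub, coeff_C_mul, mul_assoc, coeff_C_mul, coeff_X_mul]
    have h2 := abs_coeff_le (lin p q * R) (i + 1)
    rw [h1] at h2
    push_cast at h2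
    have h3 := abs_coeff_le R (i + 1)
    have h4 : (q : ℝ) * |(R.coeff i : ℝ)| = |(q : ℝ) * (R.coeff i : ℝ)| := by
      rw [abs_mul, abs_of_pos hqR]
    rw [h4]
    have h5 : (q : ℝ) * (R.coeff i : ℝ) = (q * (R.coeff i : ℝ) - p * (R.coeff (i + 1) : ℝ)) +
        p * (R.coeff (i + 1) : ℝ) := by ring
    rw [h5]
    refine (abs_add_le _ _).trans (add_le_add h2 ?_)
    rw [abs_mul, Nat.abs_cast]
    have : (0 : ℝ) ≤ p := Nat.cast_nonneg p
    calc (p : ℝ) * |(R.coeff (i + 1) : ℝ)| ≤ p * height R := mul_le_mul_of_nonneg_left h3 this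
      _ ≤ q / 2 * height R := mul_le_mul_of_nonneg_right (by linarith) (Nat.cast_nonneg _)
  have h6 : (height R : ℝ) ≤ (height (lin p q * R) + q / 2 * height R) / q := by
    apply height_le_of (by positivity)
    intro i
    rw [le_div_iff₀ hqR, mul_comm]
    exact key i
  rw [le_div_iff₀ hqR] at h6
  linarith

/-- the height of a monic factor of a monic polynomial -/
lemma height_monic_factor {f P : ℤ[X]} {n : ℕ} (hf : f.Monic) (hP : P.Monic) (hn : P.natDegree ≤ n)
    (h : f ∣ P) : (height f : ℝ) ≤ 2 ^ n * (n + 1) * height P := by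
  obtain ⟨g, hg⟩ := h
  have hgm : g.Monic := hf.of_mul_monic_left (hg ▸ hP)
  have hdeg : f.natDegree ≤ n := by
    rw [hg, hf.natDegree_mul hgm] at hn; omega
  have hM : (f.map (Int.castRingHom ℂ)).mahlerMeasure ≤ (P.map (Int.castRingHom ℂ)).mahlerMeasure := by
    rw [hg, Polynomial.map_mul, mahlerMeasure_mul]
    have h1 : 1 ≤ (g.map (Int.castRingHom ℂ)).mahlerMeasure := by
      apply one_le_mahlerMeasure_of_one_le_norm_leadingCoeff
      rw [(hgm.map _).leadingCoeff]; simp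
    exact le_mul_of_one_le_right (mahlerMeasure_nonneg _) h1
  have hP2 : (P.map (Int.castRingHom ℂ)).mahlerMeasure ≤ (n + 1) * height P := by
    refine (mahlerMeasure_le_sum_norm_coeff _).trans ?_
    rw [sum_over_range' _ (by simp) (n + 1) (lt_of_le_of_lt natDegree_map_le (by omega))]
    refine (Finset.sum_le_card_nsmul _ _ (height P : ℝ) ?_).trans ?_
    · intro i _
      rw [coeff_map]
      exact abs_coeff_le' P i
    · rw [Finset.card_range, nsmul_eq_mul]; push_cast; exact le_rfl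
  apply height_le_of (by positivity)
  intro i
  have h2 := norm_coeff_le_choose_mul_mahlerMeasure i (f.map (Int.castRingHom ℂ))
  rw [coeff_map] at h2
  have h3 : ‖(Int.castRingHom ℂ) (f.coeff i)‖ = |(f.coeff i : ℝ)| := by
    simp only [eq_intCast]
    rw [← Complex.ofReal_intCast, Complex.norm_real, Real.norm_eq_abs]
  rw [h3] at h2
  have h4 : (((f.map (Int.castRingHom ℂ)).natDegree.choose i : ℕ) : ℝ) ≤ 2 ^ n := by
    have h5 : (f.map (Int.castRingHom ℂ)).natDegree ≤ n := natDegree_map_le.trans hdeg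
    have h6 := Nat.choose_le_two_pow (f.map (Int.castRingHom ℂ)).natDegree i
    have h7 : 2 ^ (f.map (Int.castRingHom ℂ)).natDegree ≤ 2 ^ n := Nat.pow_le_pow_right (by norm_num) h5
    exact_mod_cast h6.trans h7
  calc |(f.coeff i : ℝ)| ≤ _ := h2
    _ ≤ 2 ^ n * ((n + 1) * height P) :=
        mul_le_mul h4 (hM.trans hP2) (mahlerMeasure_nonneg _) (by positivity)
    _ = _ := by ring

end Pool.Agent.Q271.UA
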