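import Pool.Agent.Q271.UA.UniformLub

/-!
# Limits of sequences of rational numbers with controlled differences
-/

set_option autoImplicit false

namespace Pool.Agent.Q271.UA

open Polynomial

/-- lower bound for the values of monic polynomials at `p / q` -/
lemma low_of {n p q : ℕ} (hn : 1 ≤ n) (hq : 2 ≤ q) (hc : Nat.Coprime p q) {N : ℤ}
    (hN : (q : ℤ) ∣ (p : ℤ) ^ n - N) {c ν : ℝ} (hc1 : c ≤ 1) (hν1 : ν ≤ 1)
    (h1 : c * (q : ℝ) ^ ν ≤ |(N : ℝ)|) (h2 : c * (q : ℝ) ^ ν ≤ q - |(N : ℝ)|)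
    (P : ℤ[X]) (hP : P.Monic) (hd : P.natDegree ≤ n) :
    c * (q : ℝ) ^ (-((n : ℝ) - ν)) ≤ |aeval ((p : ℝ) / q) P| := by
  have hqR : (0 : ℝ) < q := by exact_mod_cast (by omega : 0 < q)
  have hq1 : (1 : ℝ) ≤ q := by exact_mod_cast (by omega : 1 ≤ q)
  have hq0 : (q : ℤ) ≠ 0 := by exact_mod_cast (by omega : q ≠ 0)
  rcases Nat.lt_or_ge P.natDegree n with h | h
  · -- smaller degree
    have hne : aeval ((p : ℝ) / q) P ≠ 0 := by
      intro h0
      have h3 := num_eq P le_rfl (p : ℤ) (q : ℤ) hq0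
      push_cast at h3
      rw [h0, mul_zero] at h3
      have h4 : num P P.natDegree p q = 0 := by exact_mod_cast h3
      have h5 := num_modEq P P.natDegree p q
      rw [h4, zero_sub, dvd_neg, coeff_natDegree, hP.leadingCoeff, one_mul] at h5
      have h6 : q ∣ p ^ P.natDegree := by exact_mod_cast h5
      have h7 : Nat.Coprime q (p ^ P.natDegree) := (hc.symm).pow_right _
      have h8 := Nat.eq_one_of_dvd_coprimes h7 dvd_rfl h6
      omega
    have h3 := inv_pow_le P le_rfl p q (by omega) hne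
    refine le_trans ?_ h3
    rw [← Real.rpow_natCast, ← Real.rpow_neg hqR.le]
    have h4 : (P.natDegree : ℝ) + 1 ≤ n := by exact_mod_cast h
    calc c * (q : ℝ) ^ (-((n : ℝ) - ν)) ≤ 1 * (q : ℝ) ^ (-((n : ℝ) - ν)) := by gcongr
      _ = (q : ℝ) ^ (-((n : ℝ) - ν)) := one_mul _
      _ ≤ _ := Real.rpow_le_rpow_of_exponent_le hq1 (by linarith)
  · have hd' : P.natDegree = n := le_antisymm hd h
    have h3 := num_eq P hd (p : ℤ) (q : ℤ) hq0
    push_cast at h3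
    have h4 := num_modEq P n p q
    have h5 : P.coeff n = 1 := by rw [← hd', coeff_natDegree, hP.leadingCoeff]
    rw [h5, one_mul] at h4
    obtain ⟨m, hm⟩ : (q : ℤ) ∣ num P n p q - N := by
      have := dvd_add h4 hN
      rwa [sub_add_sub_cancel] at this
    have h6 : c * (q : ℝ) ^ ν ≤ |(num P n p q : ℝ)| := by
      have h7 : (num P n p q : ℝ) = N + q * m := by
        have : num P n p q = N + q * m := by linarith
        exact_mod_cast this
      rcases eq_or_ne m 0 with hm0 | hm0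
      · rw [h7, hm0]; simpa using h1
      · have h8 : (1 : ℝ) ≤ |(m : ℝ)| := by
          rw [← Int.cast_abs]; exact_mod_cast Int.one_le_abs hm0
        have h9 : (q : ℝ) ≤ |(q : ℝ) * m| := by
          rw [abs_mul, abs_of_pos hqR]; nlinarith
        have h10 := abs_sub_abs_le_abs_sub ((q : ℝ) * m) (-N)
        rw [abs_neg, sub_neg_eq_add, add_comm ((q : ℝ) * m)] at h10
        rw [h7]
        linarith
    have h8 : (0 : ℝ) < (q : ℝ) ^ n := by positivity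
    have h9 : |aeval ((p : ℝ) / q) P| = |(num P n p q : ℝ)| / (q : ℝ) ^ n := by
      rw [h3, abs_mul, abs_of_pos h8]
      field_simp
    rw [h9, le_div_iff₀ h8, mul_assoc, ← Real.rpow_natCast, ← Real.rpow_add hqR]
    rwa [show -((n : ℝ) - ν) + n = ν by ring]

/-- the limit of an increasing sequence with small differences -/
lemma exists_limit (q : ℕ → ℕ) (x : ℕ → ℝ) {w a b : ℝ} (hw : 0 ≤ w) (ha : 0 < a) (hb : 0 ≤ b)
    (hq : ∀ k, 1 ≤ q k) (hgrow : ∀ k, 2 * q k ≤ q (k + 1)) (hx : ∀ k, 0 ≤ x k ∧ x k ≤ 1)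
    (h1 : ∀ k, a * (q k : ℝ) ^ (-(w + 1)) ≤ x (k + 1) - x k)
    (h2 : ∀ k, x (k + 1) - x k ≤ b * (q k : ℝ) ^ (-(w + 1))) :
    ∃ ζ : ℝ, |ζ| ≤ 1 ∧ ∀ k, a * (q k : ℝ) ^ (-(w + 1)) ≤ ζ - x k ∧
      ζ - x k ≤ 2 * b * (q k : ℝ) ^ (-(w + 1)) := by
  have hq0 : ∀ k, (0 : ℝ) < q k := fun k => by exact_mod_cast hq k
  have hmono : Monotone x := by
    apply monotone_nat_of_le_succ
    intro k
    have := h1 k
    have h3 := hq0 k
    have : 0 ≤ a * (q k : ℝ) ^ (-(w + 1)) := by positivity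
    linarith
  have hhalf : ∀ k, (q (k + 1) : ℝ) ^ (-(w + 1)) ≤ 1 / 2 * (q k : ℝ) ^ (-(w + 1)) := by
    intro k
    have h3 := hq0 k
    have h4 : (2 : ℝ) * q k ≤ q (k + 1) := by exact_mod_cast hgrow k
    calc (q (k + 1) : ℝ) ^ (-(w + 1)) ≤ (2 * (q k : ℝ)) ^ (-(w + 1)) :=
          Real.rpow_le_rpow_of_nonpos (by positivity) h4 (by linarith)
      _ = 2 ^ (-(w + 1)) * (q k : ℝ) ^ (-(w + 1)) := Real.mul_rpow (by norm_num) h3.le
      _ ≤ 1 / 2 * (q k : ℝ) ^ (-(w + 1)) := by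
          apply mul_le_mul_of_nonneg_right _ (by positivity)
          calc (2 : ℝ) ^ (-(w + 1)) ≤ 2 ^ (-1 : ℝ) :=
                Real.rpow_le_rpow_of_exponent_le (by norm_num) (by linarith)
            _ = 1 / 2 := by rw [Real.rpow_neg_one]; norm_num
  have hanti : Antitone fun k => x k + 2 * b * (q k : ℝ) ^ (-(w + 1)) := by
    apply antitone_nat_of_succ_le
    intro k
    have h3 := h2 k
    have h4 := mul_le_mul_of_nonneg_left (hhalf k) (by positivity : 0 ≤ 2 * b)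
    linarith
  have hle : ∀ j k, x j ≤ x k + 2 * b * (q k : ℝ) ^ (-(w + 1)) := by
    intro j k
    have h3 := hq0 k
    have h4 := hq0 j
    rcases le_total j k with h | h
    · have := hmono h
      have : 0 ≤ 2 * b * (q k : ℝ) ^ (-(w + 1)) := by positivity
      linarith
    · have := hanti h
      simp only at this
      have : 0 ≤ 2 * b * (q j : ℝ) ^ (-(w + 1)) := by positivity
      linarith
  have hbdd : BddAbove (Set.range x) := ⟨1, by rintro _ ⟨k, rfl⟩; exact (hx k).2⟩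
  refine ⟨⨆ k, x k, ?_, fun k => ⟨?_, ?_⟩⟩
  · rw [abs_le]
    constructor
    · have := le_ciSup hbdd 0
      linarith [(hx 0).1]
    · exact ciSup_le fun k => (hx k).2
  · have := le_ciSup hbdd (k + 1)
    linarith [h1 k]
  · have := ciSup_le fun j => hle j k
    linarith

/-- properties of a single approximation -/
structure Inv (n : ℕ) (ν c C : ℝ) (p q : ℕ) (N : ℤ) : Prop where
  q2 : 2 ≤ q
  half : 2 * p ≤ q
  cop : Nat.Coprime p q
  dvd : (q : ℤ) ∣ (p : ℤ) ^ n - N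
  abs : |N| ≤ q
  lo : c * (q : ℝ) ^ ν ≤ |(N : ℝ)|
  lo' : c * (q : ℝ) ^ ν ≤ q - |(N : ℝ)|
  hi : |(N : ℝ)| ≤ C * (q : ℝ) ^ ν

/-- the relation between consecutive approximations -/
structure Rel (w κ c C : ℝ) (p q p' q' : ℕ) : Prop where
  grow : 2 * q ≤ q'
  up : (q' : ℝ) ≤ C * (q : ℝ) ^ κ
  lo : c * (q : ℝ) ^ (-(w + 1)) ≤ (p' : ℝ) / q' - (p : ℝ) / q
  hi : (p' : ℝ) / q' - (p : ℝ) / q ≤ C * (q : ℝ) ^ (-(w + 1))

/-- the interval of the possible limits -/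
def Ival (w C : ℝ) (p q : ℕ) : Set ℝ :=
  Set.Icc ((p : ℝ) / q) ((p : ℝ) / q + 2 * C * (q : ℝ) ^ (-(w + 1)))

lemma build {n : ℕ} (hn : 1 ≤ n) {w κ ν c C : ℝ} (hw : 0 ≤ w) (hν1 : ν ≤ 1)
    (hc : 0 < c) (hc1 : c ≤ 1) (hC : 1 ≤ C) (p q : ℕ → ℕ) (N : ℕ → ℤ)
    (h1 : ∀ k, Inv n ν c C (p k) (q k) (N k))
    (h2 : ∀ k, Rel w κ c C (p k) (q k) (p (k + 1)) (q (k + 1))) :
    ∃ ζ : ℝ, Nonempty (Data n w κ ν ζ) ∧ ∀ k, ζ ∈ Ival w C (p k) (q k) := by
  have hq0 : ∀ k, (0 : ℝ) < q k := fun k => by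
    have := (h1 k).q2
    exact_mod_cast (by omega : 0 < q k)
  obtain ⟨ζ, hζ, hζk⟩ := exists_limit q (fun k => (p k : ℝ) / q k) (w := w) (a := c) (b := C) hw hc
    (by linarith) (fun k => by have := (h1 k).q2; omega) (fun k => (h2 k).grow)
    (fun k => ⟨by positivity, by
      rw [div_le_one (hq0 k)]
      have := (h1 k).half
      exact_mod_cast (by omega : p k ≤ q k)⟩) (fun k => (h2 k).lo) (fun k => (h2 k).hi)
  refine ⟨ζ, ⟨{
    p := p
    q := q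
    c := c
    C := 2 * C
    N := N
    c_pos := hc
    C_ge := by linarith
    ζ_le := hζ
    q2 := fun k => (h1 k).q2
    grow := fun k => (h2 k).grow
    half := fun k => (h1 k).half
    cop := fun k => (h1 k).cop
    up := fun k => (h2 k).up.trans ?_
    lo := fun k => (hζk k).1.trans (le_abs_self _)
    hi := fun k => ?_
    N_dvd := fun k => (h1 k).dvd
    N_abs := fun k => (h1 k).abs
    N_le := fun k => (h1 k).hi.trans ?_
    low := fun k P hP hd => low_of hn (h1 k).q2 (h1 k).cop (h1 k).dvd hc1 hν1 (h1 k).lo (h1 k).lo'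
      P hP hd }⟩, fun k => ⟨?_, ?_⟩⟩
  · have := hq0 k
    apply mul_le_mul_of_nonneg_right _ (by positivity)
    linarith
  · have h3 := hq0 k
    have h4 : 0 ≤ c * (q k : ℝ) ^ (-(w + 1)) := by positivity
    rw [abs_of_nonneg (h4.trans (hζk k).1)]
    exact (hζk k).2
  · have := hq0 k
    apply mul_le_mul_of_nonneg_right _ (by positivity)
    linarith
  · have h3 := hq0 k
    have h4 : 0 ≤ c * (q k : ℝ) ^ (-(w + 1)) := by positivity
    linarith [(hζk k).1]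
  · linarith [(hζk k).2]

/-- building sequences by recursion; a given sequence of numbers can be avoided -/
lemma build_rec {n : ℕ} (hn : 1 ≤ n) {w κ ν c C : ℝ} (hw : 0 ≤ w) (hν1 : ν ≤ 1)
    (hc : 0 < c) (hc1 : c ≤ 1) (hC : 1 ≤ C) (I : ℕ → ℕ → ℤ → Prop)
    (h0 : ∃ p q N, I p q N) (hI : ∀ p q N, I p q N → Inv n ν c C p q N)
    (hstep : ∀ (a : ℝ) p q N, I p q N →
      ∃ p' q' N', I p' q' N' ∧ Rel w κ c C p q p' q' ∧ a ∉ Ival w C p' q') :
    ∃ ζ : ℝ, Transcendental ℚ ζ ∧ Nonempty (Data n w κ ν ζ) := by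
  obtain ⟨p0, q0, N0, h0⟩ := h0
  obtain ⟨a, ha⟩ := (Algebraic.countable ℚ ℝ).exists_eq_range ⟨0, isAlgebraic_zero⟩
  have hs : ∀ (a : ℝ) (s : {s : ℕ × ℕ × ℤ // I s.1 s.2.1 s.2.2}),
      ∃ s' : {s : ℕ × ℕ × ℤ // I s.1 s.2.1 s.2.2},
      Rel w κ c C s.1.1 s.1.2.1 s'.1.1 s'.1.2.1 ∧ a ∉ Ival w C s'.1.1 s'.1.2.1 := by
    rintro a ⟨⟨p, q, N⟩, h⟩
    obtain ⟨p', q', N', h', hr⟩ := hstep a p q N h
    exact ⟨⟨(p', q', N'), h'⟩, hr⟩
  choose f hf using hs
  obtain ⟨S, hS⟩ : ∃ S : ℕ → {s : ℕ × ℕ × ℤ // I s.1 s.2.1 s.2.2},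
      ∀ k, S (k + 1) = f (a k) (S k) :=
    ⟨fun k => Nat.rec ⟨(p0, q0, N0), h0⟩ (fun k s => f (a k) s) k, fun _ => rfl⟩
  obtain ⟨ζ, hD, hζ⟩ := build hn hw hν1 hc hc1 hC (fun k => (S k).1.1) (fun k => (S k).1.2.1)
    (fun k => (S k).1.2.2) (κ := κ) (fun k => hI _ _ _ (S k).2) (fun k => by
      have := (hf (a k) (S k)).1
      rw [← hS] at this
      exact this)
  refine ⟨ζ, fun halg => ?_, hD⟩
  have h1 : ζ ∈ Set.range a := by rw [← ha]; exact halg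
  obtain ⟨k, rfl⟩ := h1
  have h2 := (hf (a k) (S k)).2
  rw [← hS] at h2
  exact h2 (hζ (k + 1))

end Pool.Agent.Q271.UA
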