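import Pool.Agent.Q271.UA.Main

/-!
# Membership in the class `D_{n,w}`
-/

set_option autoImplicit false

namespace Pool.Agent.Q271.UA

open Polynomial

namespace Data

variable {n : ℕ} {w κ ν : ℝ} {ζ : ℝ} (D : Data n w κ ν ζ)
include D

lemma q_large (B : ℝ) : ∃ k₀ : ℕ, ∀ k, k₀ ≤ k → B ≤ D.q k := by
  obtain ⟨k₀, hk₀⟩ := exists_nat_ge B
  exact ⟨k₀, fun k hk => hk₀.trans (by exact_mod_cast hk.trans (D.k_le k))⟩

lemma pow_large (A : ℝ) {s : ℝ} (hs : 0 < s) : ∃ k₀ : ℕ, ∀ k, k₀ ≤ k → A ≤ (D.q k : ℝ) ^ s := by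
  obtain ⟨B, -, hB⟩ := exists_large A hs
  obtain ⟨k₀, hk₀⟩ := D.q_large B
  exact ⟨k₀, fun k hk => hB _ (hk₀ k hk)⟩

lemma isLUB_W (hn : 1 ≤ n) (hw : (n : ℝ) ≤ w) (hκ : n * κ ≤ w * (w + 1 - n)) {m : ℕ} (hm1 : 1 ≤ m)
    (hm : m ≤ n) : IsLUB (W m ζ) w := by
  have hnR : (1 : ℝ) ≤ n := by exact_mod_cast hn
  apply isLUB_of
  · intro x hx
    unfold W
    rw [Set.mem_ofPred_eq, Set.not_infinite]
    obtain ⟨c', hc', hlow⟩ := D.lower hn hw hκ m hm
    obtain ⟨B, hB1, hB⟩ := exists_large (2 / c') (show 0 < x - w by linarith)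
    refine (finite_height_le m ⌈B⌉₊).subset ?_
    rintro P ⟨hP0, hPd, hP⟩
    refine ⟨hPd, ?_⟩
    by_contra hcon
    have h1 : B ≤ height P := (Nat.le_ceil B).trans (by exact_mod_cast (not_le.1 hcon).le)
    have h2 := hB _ h1
    have h3 := (hlow P hP0 hPd).trans hP
    have hH : (0 : ℝ) < height P := by linarith
    have h4 : (height P : ℝ) ^ (-w) = (height P : ℝ) ^ (x - w) * (height P : ℝ) ^ (-x) := by
      rw [← Real.rpow_add hH]; congr 1; ring
    rw [h4, ← mul_assoc] at h3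
    have h5 : (0 : ℝ) < (height P : ℝ) ^ (-x) := by positivity
    have h6 : c' * (height P : ℝ) ^ (x - w) ≤ 1 := by
      by_contra h7
      rw [not_le] at h7
      nlinarith
    rw [div_le_iff₀ hc'] at h2
    linarith
  · intro x hx
    unfold W
    rw [Set.mem_ofPred_eq]
    obtain ⟨k₀, hk₀⟩ := D.pow_large D.C (show 0 < w - x by linarith)
    refine Set.infinite_of_injective_forall_mem
      (f := fun k : ℕ => lin (D.p (k₀ + k)) (D.q (k₀ + k))) ?_ ?_
    · intro j k hjk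
      have h1 : height (lin (D.p (k₀ + j)) (D.q (k₀ + j))) =
          height (lin (D.p (k₀ + k)) (D.q (k₀ + k))) := by
        simp only at hjk; rw [hjk]
      rw [D.height_lin, D.height_lin] at h1
      have := D.q_strictMono.injective h1
      omega
    · intro k
      have hq := D.q_pos (k₀ + k)
      have hq' : 0 < D.q (k₀ + k) := by exact_mod_cast hq
      refine ⟨lin_ne_zero _ _ hq', by rw [lin_natDegree _ _ hq']; exact hm1, ?_⟩
      rw [D.height_lin]
      refine (D.lin_hi _).trans ?_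
      have h1 := hk₀ (k₀ + k) (by omega)
      calc D.C * (D.q (k₀ + k) : ℝ) ^ (-w) ≤
          (D.q (k₀ + k) : ℝ) ^ (w - x) * (D.q (k₀ + k) : ℝ) ^ (-w) := by gcongr
        _ = _ := by rw [← Real.rpow_add hq]; congr 1; ring

lemma isLUB_WStar (hn : 1 ≤ n) (hw : (n : ℝ) ≤ w) (hκ : n * κ ≤ w * (w + 1 - n)) {m : ℕ}
    (hm1 : 1 ≤ m) (hm : m ≤ n) : IsLUB (WStar m ζ) w := by
  have hnR : (1 : ℝ) ≤ n := by exact_mod_cast hn
  apply isLUB_of
  · intro x hx
    unfold WStar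
    rw [Set.mem_ofPred_eq, Set.not_infinite]
    obtain ⟨c', hc', hlow⟩ := D.lower hn hw hκ m hm
    have hK := K_pos m
    obtain ⟨B, hB1, hB⟩ := exists_large (2 * K m / c') (show 0 < x - w by linarith)
    have hfin := finite_height_le m ⌈B⌉₊
    have hroots : (⋃ f ∈ {P : ℤ[X] | P.natDegree ≤ m ∧ height P ≤ ⌈B⌉₊},
        {α : ℂ | α ∈ f.aroots ℂ}).Finite := by
      apply hfin.biUnion
      intro f _
      exact (f.aroots ℂ).finite_toSet
    refine hroots.subset ?_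
    rintro α ⟨f, hf, hα, hfd, hle⟩
    have hf0 : f ≠ 0 := hf.ne_zero
    have hH := one_le_height' hf0
    have hH0 : (0 : ℝ) < height f := by linarith
    have hsub : ‖α‖ ≤ 2 := by
      have h1 : ‖(ζ : ℂ) - α‖ ≤ 1 := by
        refine hle.trans ?_
        exact Real.rpow_le_one_of_one_le_of_nonpos hH (by linarith)
      have h2 : ‖(ζ : ℂ)‖ ≤ 1 := by rw [Complex.norm_real, Real.norm_eq_abs]; exact D.ζ_le
      have h3 : ‖α‖ ≤ ‖(ζ : ℂ)‖ + ‖(ζ : ℂ) - α‖ := by
        have := _root_.norm_sub_le (ζ : ℂ) ((ζ : ℂ) - α)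
        simpa using this
      linarith
    have h2 := UA.norm_sub_le f hfd (ζ : ℂ) α
      (by rw [Complex.norm_real, Real.norm_eq_abs]; linarith [D.ζ_le]) hsub
    rw [hα, sub_zero, aeval_ofReal, Complex.norm_real, Real.norm_eq_abs] at h2
    have h3 : (height f : ℝ) * (height f : ℝ) ^ (-x - 1) = (height f : ℝ) ^ (-x) := by
      have h4 := Real.rpow_add hH0 1 (-x - 1)
      rw [Real.rpow_one] at h4
      rw [← h4]; congr 1; ring
    have h4 : |aeval ζ f| ≤ K m * (height f : ℝ) ^ (-x) := by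
      calc |aeval ζ f| ≤ K m * height f * ‖(ζ : ℂ) - α‖ := h2
        _ ≤ K m * height f * (height f : ℝ) ^ (-x - 1) := by gcongr
        _ = K m * ((height f : ℝ) * (height f : ℝ) ^ (-x - 1)) := by ring
        _ = _ := by rw [h3]
    rw [Set.mem_iUnion₂]
    refine ⟨f, ⟨hfd, ?_⟩, ?_⟩
    · by_contra hcon
      have h1 : B ≤ height f := (Nat.le_ceil B).trans (by exact_mod_cast (not_le.1 hcon).le)
      have h2 := hB _ h1
      have h3 := (hlow f hf0 hfd).trans h4
      have h4 : (height f : ℝ) ^ (-w) = (height f : ℝ) ^ (x - w) * (height f : ℝ) ^ (-x) := by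
        rw [← Real.rpow_add hH0]; congr 1; ring
      rw [h4, ← mul_assoc] at h3
      have h5 : (0 : ℝ) < (height f : ℝ) ^ (-x) := by positivity
      have h6 : c' * (height f : ℝ) ^ (x - w) ≤ K m := by
        by_contra h7
        rw [not_le] at h7
        nlinarith
      rw [div_le_iff₀ hc'] at h2
      nlinarith
    · show α ∈ f.aroots ℂ
      rw [mem_aroots]
      exact ⟨hf0, hα⟩
  · intro x hx
    unfold WStar
    rw [Set.mem_ofPred_eq]
    obtain ⟨k₀, hk₀⟩ := D.pow_large D.C (show 0 < w - x by linarith)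
    refine Set.infinite_of_injective_forall_mem
      (f := fun k : ℕ => (((D.p (k₀ + k) : ℝ) / D.q (k₀ + k) : ℝ) : ℂ)) ?_ ?_
    · intro j k hjk
      simp only at hjk
      have h1 : (D.p (k₀ + j) : ℝ) / D.q (k₀ + j) = (D.p (k₀ + k) : ℝ) / D.q (k₀ + k) := by
        exact_mod_cast hjk
      have hqj := D.q_pos (k₀ + j)
      have hqk := D.q_pos (k₀ + k)
      rw [div_eq_div_iff hqj.ne' hqk.ne'] at h1
      have h2 : D.p (k₀ + j) * D.q (k₀ + k) = D.p (k₀ + k) * D.q (k₀ + j) := by exact_mod_cast h1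
      have h3 : D.q (k₀ + k) ∣ D.q (k₀ + j) := by
        apply (D.cop (k₀ + k)).symm.dvd_of_dvd_mul_left
        rw [← h2]; exact dvd_mul_left _ _
      have h4 : D.q (k₀ + j) ∣ D.q (k₀ + k) := by
        apply (D.cop (k₀ + j)).symm.dvd_of_dvd_mul_left
        rw [h2]; exact dvd_mul_left _ _
      have := D.q_strictMono.injective (Nat.dvd_antisymm h4 h3)
      omega
    · intro k
      have hq := D.q_pos (k₀ + k)
      have hq' : 0 < D.q (k₀ + k) := by exact_mod_cast hq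
      refine ⟨lin (D.p (k₀ + k)) (D.q (k₀ + k)), lin_irreducible hq' (D.cop _), ?_,
        by rw [lin_natDegree _ _ hq']; exact hm1, ?_⟩
      · rw [aeval_lin]
        push_cast
        have : (D.q (k₀ + k) : ℂ) ≠ 0 := by exact_mod_cast hq'.ne'
        field_simp
        ring
      rw [D.height_lin, ← Complex.ofReal_sub, Complex.norm_real, Real.norm_eq_abs]
      refine (D.hi _).trans ?_
      have h1 := hk₀ (k₀ + k) (by omega)
      calc D.C * (D.q (k₀ + k) : ℝ) ^ (-(w + 1)) ≤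
          (D.q (k₀ + k) : ℝ) ^ (w - x) * (D.q (k₀ + k) : ℝ) ^ (-(w + 1)) := by gcongr
        _ = _ := by rw [← Real.rpow_add hq]; congr 1; ring

lemma mem_classD (hn : 1 ≤ n) (hw : (n : ℝ) ≤ w) (hκ : n * κ ≤ w * (w + 1 - n))
    (ht : Transcendental ℚ ζ) : ζ ∈ ClassD n w :=
  ⟨ht, fun _ h1 h2 => ⟨D.isLUB_W hn hw hκ h1 h2, D.isLUB_WStar hn hw hκ h1 h2⟩⟩

end Data

end Pool.Agent.Q271.UA
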