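import Pool.Agent.Q271.UA.Build

/-!
# The first construction: the values up to `(n - 1) / (w - n + 1)`
-/

set_option autoImplicit false

namespace Pool.Agent.Q271.UA

open Polynomial

lemma exists_mod {m : ℕ} (hm : 0 < m) {M : ℕ} (hc : Nat.Coprime M m) (r : ℤ) (B : ℕ) :
    ∃ x : ℕ, B ≤ x ∧ x < B + m ∧ (m : ℤ) ∣ M * x - r := by
  obtain ⟨u, v, huv⟩ := Nat.isCoprime_iff_coprime.2 hc
  have hm' : (0 : ℤ) < m := by exact_mod_cast hm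
  have h1 := Int.emod_nonneg (u * r - B) hm'.ne'
  have h2 := Int.emod_lt_of_pos (u * r - B) hm'
  obtain ⟨t, ht⟩ : ∃ t : ℕ, (t : ℤ) = (u * r - B) % m := ⟨_, Int.toNat_of_nonneg h1⟩
  rw [← ht] at h2
  refine ⟨B + t, by omega, by omega, ?_⟩
  have h3 : (m : ℤ) ∣ (u * r - B) - t := by rw [ht]; exact Int.dvd_self_sub_emod
  have h4 : (M : ℤ) * ((B + t : ℕ) : ℤ) - r = -(M * ((u * r - B) - t)) - (m * (v * r)) := by
    push_cast
    linear_combination (r * huv)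
  rw [h4]
  exact dvd_sub ((h3.mul_left _).neg_right) (dvd_mul_right _ _)

/-- the invariant of the first construction -/
structure I₁ (n : ℕ) (ν : ℝ) (p q : ℕ) (N : ℤ) : Prop where
  inv : Inv n ν (1 / 8) 8 p q N
  q4 : 4 ≤ q
  p1 : 1 ≤ p
  p4 : q ≤ 4 * p
  p2 : 2 * p < q

lemma start₁ (n : ℕ) {ν : ℝ} (hν : 0 ≤ ν) (hν1 : ν ≤ 1) : I₁ n ν 1 4 1 := by
  have h1 : (4 : ℝ) ^ ν ≤ 4 := by
    calc (4 : ℝ) ^ ν ≤ 4 ^ (1 : ℝ) := Real.rpow_le_rpow_of_exponent_le (by norm_num) hν1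
      _ = 4 := Real.rpow_one _
  have h2 : 1 ≤ (4 : ℝ) ^ ν := Real.one_le_rpow (by norm_num) hν
  refine ⟨⟨by norm_num, by norm_num, by norm_num, by simp, by norm_num, ?_, ?_, ?_⟩, le_rfl, le_rfl,
    by norm_num, by norm_num⟩
  · push_cast; norm_num; linarith
  · push_cast; norm_num; linarith
  · push_cast; norm_num; linarith

lemma core₁ {n : ℕ} (hn : 2 ≤ n) {w ν : ℝ} (hw : (n : ℝ) ≤ w) (hν : 1 - ((n : ℝ) - 1) / w ≤ ν)
    (hν1 : ν ≤ 1) {p q : ℕ} {N : ℤ} (h : I₁ n ν p q N) :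
    ∃ M : ℕ, Nat.Coprime M (q ^ n) ∧ ∀ q' : ℕ, (q : ℝ) ^ w ≤ q' → (q' : ℝ) ≤ 4 * (q : ℝ) ^ w →
      ((q ^ n : ℕ) : ℤ) ∣ M * q' + 1 → ∃ p' N', I₁ n ν p' q' N' ∧ Rel w w (1 / 8) 8 p q p' q' ∧
        (p' : ℝ) / q' - (p : ℝ) / q = 1 / (q * q') := by
  have hnR : (2 : ℝ) ≤ n := by exact_mod_cast hn
  have hw0 : 0 < w := by linarith
  obtain ⟨⟨hq2, hhalf, hcop, -, -, -, -, -⟩, hq4, hp1, hp4, hp2⟩ := h
  have hqR : (4 : ℝ) ≤ q := by exact_mod_cast hq4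
  have hν0 : 0 ≤ ν := by
    have h1 : ((n : ℝ) - 1) / w ≤ 1 := by rw [div_le_one hw0]; linarith
    linarith
  have hq0 : (0 : ℝ) < q := by linarith
  have hq1 : (1 : ℝ) ≤ q := by linarith
  obtain ⟨μ, hμ⟩ : ∃ μ, μ = n - w * (1 - ν) := ⟨_, rfl⟩
  have hμ1 : 1 ≤ μ := by
    have h1 : w * (1 - ν) ≤ n - 1 := by
      have h2 : 1 - ν ≤ (n - 1) / w := by linarith
      calc w * (1 - ν) ≤ w * ((n - 1) / w) := by gcongr
        _ = n - 1 := by field_simp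
    linarith
  have hμn : μ ≤ n := by
    have : 0 ≤ w * (1 - ν) := mul_nonneg hw0.le (by linarith)
    linarith
  obtain ⟨a, ha⟩ : ∃ a : ℕ, a = ⌊(q : ℝ) ^ (μ - 1) / 2⌋₊ := ⟨_, rfl⟩
  obtain ⟨M, hM⟩ : ∃ M, M = p + q * a := ⟨_, rfl⟩
  have hMR : (M : ℝ) = p + q * a := by rw [hM]; push_cast; ring
  have hqμ : (q : ℝ) ^ (μ - 1) * q = (q : ℝ) ^ μ := by
    have h1 := Real.rpow_add hq0 (μ - 1) 1
    rw [Real.rpow_one, sub_add_cancel] at h1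
    exact h1.symm
  have hqμ1 : 1 ≤ (q : ℝ) ^ (μ - 1) := Real.one_le_rpow hq1 (by linarith)
  have ha1 : (a : ℝ) ≤ (q : ℝ) ^ (μ - 1) / 2 := by rw [ha]; exact Nat.floor_le (by positivity)
  have ha2 : (q : ℝ) ^ (μ - 1) / 2 < a + 1 := by rw [ha]; exact Nat.lt_floor_add_one _
  have hp4R : (q : ℝ) ≤ 4 * p := by exact_mod_cast hp4
  have hp2R : 2 * (p : ℝ) ≤ q := by exact_mod_cast hp2.le
  have hMlo : (q : ℝ) ^ μ / 8 ≤ M := by
    rw [hMR, ← hqμ]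
    rcases le_or_gt 2 ((q : ℝ) ^ (μ - 1)) with h2 | h2
    · nlinarith
    · have h3 : (0 : ℝ) ≤ q * a := by positivity
      nlinarith
  have hMhi : (M : ℝ) ≤ (q : ℝ) ^ μ := by
    rw [hMR, ← hqμ]
    nlinarith
  have hqn : (q : ℝ) ^ μ ≤ (q : ℝ) ^ n := by
    rw [← Real.rpow_natCast]
    exact Real.rpow_le_rpow_of_exponent_le hq1 hμn
  have hqn2 : 4 * (q : ℝ) ≤ (q : ℝ) ^ n := by
    calc 4 * (q : ℝ) ≤ (q : ℝ) ^ 2 := by nlinarith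
      _ ≤ (q : ℝ) ^ n := pow_le_pow_right₀ hq1 hn
  have hMhi2 : (M : ℝ) ≤ 5 / 8 * (q : ℝ) ^ n := by
    have h1 : (q : ℝ) * a ≤ (q : ℝ) ^ μ / 2 := by rw [← hqμ]; nlinarith
    rw [hMR]; linarith
  have hMcop : Nat.Coprime M (q ^ n) := by
    apply Nat.Coprime.pow_right
    rw [hM]
    rwa [Nat.coprime_add_mul_left_left]
  have hqw : (q : ℝ) ^ n ≤ (q : ℝ) ^ w := by
    rw [← Real.rpow_natCast]
    exact Real.rpow_le_rpow_of_exponent_le hq1 hw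
  refine ⟨M, hMcop, fun q' hlo hup hq'3 => ?_⟩
  have hq'16 : (16 : ℝ) ≤ q' := by
    have : (16 : ℝ) ≤ 4 * q := by linarith
    linarith
  have hq'0 : (0 : ℝ) < q' := by linarith
  obtain ⟨N', hN'⟩ := hq'3
  push_cast at hN'
  obtain ⟨p'z, hp'z⟩ : (q : ℤ) ∣ 1 + p * q' := by
    have h1 : (1 : ℤ) + p * q' = (M * q' + 1) - q * (a * q') := by rw [hM]; push_cast; ring
    rw [h1, hN']
    apply dvd_sub _ (dvd_mul_right _ _)
    exact (dvd_pow_self _ (by omega)).mul_right _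
  have hp'0 : 0 < p'z := by
    have h1 : (0 : ℤ) < q := by omega
    have h2 : (0 : ℤ) < q * p'z := by rw [← hp'z]; positivity
    exact (mul_pos_iff_of_pos_left h1).1 h2
  obtain ⟨p', rfl⟩ : ∃ p' : ℕ, (p' : ℤ) = p'z := ⟨p'z.toNat, Int.toNat_of_nonneg hp'0.le⟩
  have hqZ : (0 : ℤ) < q := by omega
  have hq'Z : (16 : ℤ) ≤ q' := by exact_mod_cast hq'16
  have hcop' : IsCoprime (p' : ℤ) q' := ⟨q, -p, by linarith⟩
  have hcopq : IsCoprime (q' : ℤ) q := ⟨-p, p', by linarith⟩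
  have hdvd : (q' : ℤ) ∣ (p' : ℤ) ^ n - N' := by
    apply (hcopq.pow_right (n := n)).dvd_of_dvd_mul_right
    have h1 : ((p' : ℤ) ^ n - N') * q ^ n = ((1 + p * q') ^ n - 1 ^ n) - M * q' := by
      rw [sub_mul, ← mul_pow, mul_comm (p' : ℤ) q, ← hp'z, mul_comm N', ← hN']; ring
    rw [h1]
    apply dvd_sub _ (dvd_mul_left _ _)
    refine dvd_trans ?_ (sub_dvd_pow_sub_pow _ _ n)
    rw [add_sub_cancel_left]
    exact dvd_mul_left _ _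
  have hN'R : (q : ℝ) ^ n * (N' : ℝ) = M * q' + 1 := by exact_mod_cast hN'.symm
  have hN'0 : 0 < (N' : ℝ) := by
    have h1 : 0 < (q : ℝ) ^ n * (N' : ℝ) := by rw [hN'R]; positivity
    exact (mul_pos_iff_of_pos_left (by positivity)).1 h1
  have hqn0 : (0 : ℝ) < (q : ℝ) ^ n := by positivity
  -- comparison of `q' ^ ν q ^ n` and `q' q ^ μ`
  have hsplit : (q : ℝ) ^ n = ((q : ℝ) ^ w) ^ (1 - ν) * (q : ℝ) ^ μ := by
    rw [← Real.rpow_natCast, ← Real.rpow_mul hq0.le, ← Real.rpow_add hq0]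
    congr 1; rw [hμ]; ring
  have hq'ν : (q' : ℝ) ^ ν * (q' : ℝ) ^ (1 - ν) = q' := by
    rw [← Real.rpow_add hq'0, add_sub_cancel, Real.rpow_one]
  have hc1 : (q' : ℝ) ^ ν * (q : ℝ) ^ n ≤ q' * (q : ℝ) ^ μ := by
    rw [hsplit]
    calc (q' : ℝ) ^ ν * (((q : ℝ) ^ w) ^ (1 - ν) * (q : ℝ) ^ μ)
        ≤ (q' : ℝ) ^ ν * ((q' : ℝ) ^ (1 - ν) * (q : ℝ) ^ μ) := by
          have : 0 ≤ 1 - ν := by linarith
          gcongr
      _ = ((q' : ℝ) ^ ν * (q' : ℝ) ^ (1 - ν)) * (q : ℝ) ^ μ := by ring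
      _ = _ := by rw [hq'ν]
  have hc2 : q' * (q : ℝ) ^ μ ≤ 4 * ((q' : ℝ) ^ ν * (q : ℝ) ^ n) := by
    rw [hsplit]
    have h1 : (q' : ℝ) ^ (1 - ν) ≤ 4 * ((q : ℝ) ^ w) ^ (1 - ν) := by
      calc (q' : ℝ) ^ (1 - ν) ≤ (4 * (q : ℝ) ^ w) ^ (1 - ν) :=
            Real.rpow_le_rpow hq'0.le hup (by linarith)
        _ = 4 ^ (1 - ν) * ((q : ℝ) ^ w) ^ (1 - ν) := Real.mul_rpow (by norm_num) (by positivity)
        _ ≤ 4 ^ (1 : ℝ) * ((q : ℝ) ^ w) ^ (1 - ν) := by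
            apply mul_le_mul_of_nonneg_right _ (by positivity)
            exact Real.rpow_le_rpow_of_exponent_le (by norm_num) (by linarith)
        _ = _ := by rw [Real.rpow_one]
    calc q' * (q : ℝ) ^ μ = ((q' : ℝ) ^ ν * (q' : ℝ) ^ (1 - ν)) * (q : ℝ) ^ μ := by rw [hq'ν]
      _ ≤ ((q' : ℝ) ^ ν * (4 * ((q : ℝ) ^ w) ^ (1 - ν))) * (q : ℝ) ^ μ := by gcongr
      _ = _ := by ring
  have hNlo : 1 / 8 * (q' : ℝ) ^ ν ≤ N' := by
    apply le_of_mul_le_mul_left _ hqn0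
    rw [hN'R]
    have h1 : (q : ℝ) ^ μ / 8 * q' ≤ M * q' := by gcongr
    linarith
  have hNhi : (N' : ℝ) ≤ 8 * (q' : ℝ) ^ ν := by
    apply le_of_mul_le_mul_left _ hqn0
    rw [hN'R]
    have h1 : (M : ℝ) * q' ≤ (q : ℝ) ^ μ * q' := by gcongr
    have h2 : (1 : ℝ) ≤ (q : ℝ) ^ μ * q' := by
      have h3 : 1 ≤ (q : ℝ) ^ μ := Real.one_le_rpow hq1 (by linarith)
      exact one_le_mul_of_one_le_of_one_le h3 (by linarith)
    linarith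
  have hq'νle : (q' : ℝ) ^ ν ≤ q' := by
    calc (q' : ℝ) ^ ν ≤ (q' : ℝ) ^ (1 : ℝ) :=
          Real.rpow_le_rpow_of_exponent_le (by linarith) hν1
      _ = q' := Real.rpow_one _
  have hNhi2 : (N' : ℝ) ≤ 3 / 4 * q' := by
    apply le_of_mul_le_mul_left _ hqn0
    rw [hN'R]
    have h1 : (M : ℝ) * q' ≤ 5 / 8 * (q : ℝ) ^ n * q' := by gcongr
    have h2 : (1 : ℝ) ≤ 1 / 8 * (q : ℝ) ^ n * q' := by
      have h3 : (16 : ℝ) ≤ (q : ℝ) ^ n := by linarith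
      calc (1 : ℝ) ≤ 1 / 8 * 16 * 16 := by norm_num
        _ ≤ _ := by gcongr
    linarith
  have hx : (p' : ℝ) / q' - (p : ℝ) / q = 1 / (q * q') := by
    have h1 : (q : ℝ) * p' = 1 + p * q' := by exact_mod_cast hp'z.symm
    field_simp
    linarith
  have hw1 : (q : ℝ) ^ (-(w + 1)) = 1 / (q * (q : ℝ) ^ w) := by
    rw [Real.rpow_neg hq0.le, Real.rpow_add hq0, Real.rpow_one, mul_comm, one_div]
  have hqw0 : (0 : ℝ) < (q : ℝ) ^ w := by positivity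
  refine ⟨p', N', ⟨⟨?_, ?_, Nat.isCoprime_iff_coprime.1 hcop', hdvd, ?_, ?_, ?_, ?_⟩, ?_, ?_,
    ?_, ?_⟩, ⟨?_, ?_, ?_, ?_⟩, hx⟩
  · have : (2 : ℤ) ≤ q' := by omega
    exact_mod_cast this
  · have h1 : (q : ℤ) * (2 * p') ≤ q * q' := by
      have h2 : (2 * p : ℤ) + 1 ≤ q := by exact_mod_cast hp2
      have h3 : (2 * p + 1 : ℤ) * q' ≤ q * q' := by gcongr
      nlinarith
    have h2 := le_of_mul_le_mul_left h1 hqZ
    exact_mod_cast h2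
  · have h1 : (0 : ℤ) < N' := by exact_mod_cast hN'0
    rw [abs_of_pos h1]
    have h2 : (N' : ℝ) ≤ q' := by linarith
    exact_mod_cast h2
  · rw [abs_of_pos hN'0]; exact hNlo
  · rw [abs_of_pos hN'0]; linarith
  · rw [abs_of_pos hN'0]; exact hNhi
  · have : (4 : ℤ) ≤ q' := by omega
    exact_mod_cast this
  · exact_mod_cast hp'0
  · have h1 : (q : ℤ) * q' ≤ q * (4 * p') := by
      have h2 : (q : ℤ) ≤ 4 * p := by exact_mod_cast hp4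
      have h3 : (q : ℤ) * q' ≤ 4 * p * q' := by gcongr
      nlinarith
    have h2 := le_of_mul_le_mul_left h1 hqZ
    exact_mod_cast h2
  · have h1 : (q : ℤ) * (2 * p') < q * q' := by
      have h2 : (2 * p : ℤ) + 1 ≤ q := by exact_mod_cast hp2
      have h3 : (2 * p + 1 : ℤ) * q' ≤ q * q' := by gcongr
      nlinarith
    have h2 := lt_of_mul_lt_mul_left h1 hqZ.le
    exact_mod_cast h2
  · have h1 : 2 * (q : ℝ) ≤ q' := by linarith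
    exact_mod_cast h1
  · linarith
  · rw [hx, hw1, ← mul_div_assoc, mul_one, div_le_div_iff₀ (by positivity) (by positivity)]
    have h1 : (q : ℝ) * q' ≤ q * (4 * (q : ℝ) ^ w) := by gcongr
    have h2 : (0 : ℝ) < q * (q : ℝ) ^ w := by positivity
    linarith
  · rw [hx, hw1, ← mul_div_assoc, mul_one, div_le_div_iff₀ (by positivity) (by positivity)]
    have h1 : (q : ℝ) * (q : ℝ) ^ w ≤ q * q' := by gcongr
    have h2 : (0 : ℝ) < q * q' := by positivity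
    linarith

lemma step₁ {n : ℕ} (hn : 2 ≤ n) {w ν : ℝ} (hw : (n : ℝ) ≤ w) (hν : 1 - ((n : ℝ) - 1) / w ≤ ν)
    (hν1 : ν ≤ 1) (a : ℝ) {p q : ℕ} {N : ℤ} (h : I₁ n ν p q N) :
    ∃ p' q' N', I₁ n ν p' q' N' ∧ Rel w w (1 / 8) 8 p q p' q' ∧ a ∉ Ival w 8 p' q' := by
  have hnR : (2 : ℝ) ≤ n := by exact_mod_cast hn
  have hq4 := h.q4
  have hqR : (4 : ℝ) ≤ q := by exact_mod_cast hq4
  have hq0 : (0 : ℝ) < q := by linarith
  have hq1 : (1 : ℝ) ≤ q := by linarith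
  obtain ⟨M, hM, hcore⟩ := core₁ hn hw hν hν1 h
  have hqw : (q : ℝ) ^ n ≤ (q : ℝ) ^ w := by
    rw [← Real.rpow_natCast]
    exact Real.rpow_le_rpow_of_exponent_le hq1 hw
  have hqn2 : (16 : ℝ) ≤ (q : ℝ) ^ n := by
    calc (16 : ℝ) = 4 ^ 2 := by norm_num
      _ ≤ (q : ℝ) ^ 2 := pow_le_pow_left₀ (by norm_num) hqR 2
      _ ≤ (q : ℝ) ^ n := pow_le_pow_right₀ hq1 hn
  obtain ⟨x, hx1, hx2, hx3⟩ := exists_mod (by positivity : 0 < q ^ n) hM (-1) ⌈(q : ℝ) ^ w⌉₊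
  rw [sub_neg_eq_add] at hx3
  have hlo : (q : ℝ) ^ w ≤ x := (Nat.le_ceil _).trans (by exact_mod_cast hx1)
  have hup : (x : ℝ) ≤ (q : ℝ) ^ w + 1 + (q : ℝ) ^ n := by
    have h1 : (x : ℝ) ≤ ⌈(q : ℝ) ^ w⌉₊ + (q : ℝ) ^ n := by exact_mod_cast hx2.le
    have h2 := Nat.ceil_lt_add_one (by positivity : 0 ≤ (q : ℝ) ^ w)
    linarith
  obtain ⟨p1, N1, hI1, hR1, he1⟩ := hcore x hlo (by linarith) hx3
  have hlo2 : (q : ℝ) ^ w ≤ (x + q ^ n : ℕ) := by push_cast; linarith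
  have hup2 : ((x + q ^ n : ℕ) : ℝ) ≤ 4 * (q : ℝ) ^ w := by push_cast; linarith
  obtain ⟨p2, N2, hI2, hR2, he2⟩ := hcore (x + q ^ n) hlo2 hup2 (by
    have h1 : (M : ℤ) * ((x + q ^ n : ℕ) : ℤ) + 1 = (M * x + 1) + (q ^ n : ℕ) * M := by
      push_cast; ring
    rw [h1]
    exact dvd_add hx3 (dvd_mul_right _ _))
  by_cases ha : a ∈ Ival w 8 p1 x
  · refine ⟨p2, x + q ^ n, N2, hI2, hR2, fun ha2 => ?_⟩
    have h1 := ha.1
    have h2 := ha2.2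
    obtain ⟨y, hy⟩ : ∃ y : ℝ, y = ((x + q ^ n : ℕ) : ℝ) := ⟨_, rfl⟩
    rw [← hy] at h2 he2 hlo2
    have hyx : y = x + (q : ℝ) ^ n := by rw [hy]; push_cast; rfl
    have hx0 : (0 : ℝ) < x := by linarith
    have hy0 : (0 : ℝ) < y := by linarith
    have h3 : 1 / (q * x) - 1 / (q * y) ≤ 2 * 8 * y ^ (-(w + 1)) := by linarith
    have h4 : y ^ (-(w + 1)) ≤ (y ^ 3)⁻¹ := by
      rw [← Real.rpow_natCast, ← Real.rpow_neg hy0.le]
      apply Real.rpow_le_rpow_of_exponent_le (by linarith)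
      push_cast
      linarith
    have h5 : 1 / (q * x) - 1 / (q * y) = (q : ℝ) ^ (n - 1) / (x * y) := by
      obtain ⟨m, rfl⟩ : ∃ m, n = m + 1 := ⟨n - 1, by omega⟩
      rw [Nat.add_sub_cancel]
      have h6 : y = x + (q : ℝ) ^ m * q := by rw [hyx, pow_succ]
      rw [div_sub_div _ _ (by positivity) (by positivity), div_eq_div_iff (by positivity)
        (by positivity), h6]
      ring
    have h7 : 1 ≤ (q : ℝ) ^ (n - 1) := one_le_pow₀ hq1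
    have h8 : 1 / (x * y) ≤ 16 * (y ^ 3)⁻¹ := by
      calc 1 / (x * y) ≤ (q : ℝ) ^ (n - 1) / (x * y) := by gcongr
        _ ≤ 2 * 8 * y ^ (-(w + 1)) := by rw [← h5]; exact h3
        _ ≤ 16 * (y ^ 3)⁻¹ := by linarith
    rw [← div_eq_mul_inv, div_le_div_iff₀ (by positivity) (by positivity)] at h8
    have h9 : y ^ 3 = y * (y * y) := by ring
    have h10 : x * 16 < y * y := by
      calc (x : ℝ) * 16 < y * 16 := by linarith
        _ ≤ y * y := by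
          apply mul_le_mul_of_nonneg_left _ hy0.le
          linarith
    have h11 : y * (x * 16) < y * (y * y) := mul_lt_mul_of_pos_left h10 hy0
    linarith
  · exact ⟨p1, x, N1, hI1, hR1, ha⟩

/-- **first construction** -/
theorem constr₁ {n : ℕ} (hn : 2 ≤ n) {w ν : ℝ} (hw : (n : ℝ) ≤ w)
    (hν : 1 - ((n : ℝ) - 1) / w ≤ ν) (hν1 : ν ≤ 1) :
    ∃ ζ : ℝ, Transcendental ℚ ζ ∧ Nonempty (Data n w w ν ζ) := by
  have hnR : (2 : ℝ) ≤ n := by exact_mod_cast hn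
  have hw0 : 0 < w := by linarith
  have hν0 : 0 ≤ ν := by
    have h1 : ((n : ℝ) - 1) / w ≤ 1 := by rw [div_le_one hw0]; linarith
    linarith
  exact build_rec (by omega) hw0.le hν1 (by norm_num) (by norm_num) (by norm_num) (I₁ n ν)
    ⟨1, 4, 1, start₁ n hν0 hν1⟩ (fun _ _ _ h => h.inv) (fun a _ _ _ h => step₁ hn hw hν hν1 a h)

end Pool.Agent.Q271.UA
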