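import Pool.Agent.Q271.UA.ConstrOne

/-!
# The second construction: the values from `(n - 1) / (w - n + 1)` to `n / (w - n + 1)`
-/

set_option autoImplicit false

namespace Pool.Agent.Q271.UA

open Polynomial

/-- the arithmetic of the second construction -/
lemma arith₂ {n : ℕ} (hn : 2 ≤ n) {p q s r s' q' : ℤ} (hq : 0 < q)
    (hpq : IsCoprime p q) (hsq : IsCoprime s q) (hdvd : q ∣ p ^ n + s ^ (n - 1))
    (hr : q ∣ s * r - p) (hrs : IsCoprime r s') (hq' : q' = r ^ n + s' ^ (n - 1) * q ^ n) :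
    ∃ p' : ℤ, q * p' = r + p * q' ∧ q' ∣ p' ^ n + s' ^ (n - 1) ∧ IsCoprime p' q' ∧
      IsCoprime s' q' := by
  obtain ⟨m, rfl⟩ : ∃ m, n = m + 2 := ⟨n - 2, by omega⟩
  rw [show m + 2 - 1 = m + 1 by omega] at *
  obtain ⟨t, ht⟩ := hr
  have hsr : IsCoprime (s * r) q := by
    have h1 : s * r = p + q * t := by linarith
    rw [h1]
    exact (IsCoprime.add_mul_left_left_iff).2 hpq
  have hrq : IsCoprime r q := hsr.of_mul_left_right
  have h1 : q ∣ p * r ^ (m + 1) + 1 := by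
    apply ((hsq.symm).pow_right (n := m + 1)).dvd_of_dvd_mul_left
    have h2 : s ^ (m + 1) * (p * r ^ (m + 1) + 1) =
        p * ((s * r) ^ (m + 1) - p ^ (m + 1)) + (p ^ (m + 2) + s ^ (m + 1)) := by ring
    rw [h2]
    apply dvd_add _ hdvd
    apply dvd_mul_of_dvd_right
    refine dvd_trans ?_ (sub_dvd_pow_sub_pow _ _ _)
    exact ⟨t, ht⟩
  obtain ⟨p', hp'⟩ : q ∣ r + p * q' := by
    have h2 : r + p * q' = r * (p * r ^ (m + 1) + 1) + q * (p * s' ^ (m + 1) * q ^ (m + 1)) := by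
      rw [hq']; ring
    rw [h2]
    exact dvd_add (h1.mul_left _) (dvd_mul_right _ _)
  have hq'q : IsCoprime q' q := by
    have h2 : q' = r ^ (m + 2) + q * (s' ^ (m + 1) * q ^ (m + 1)) := by rw [hq']; ring
    rw [h2]
    exact (IsCoprime.add_mul_left_left_iff).2 hrq.pow_left
  have hq's' : IsCoprime q' s' := by
    have h2 : q' = r ^ (m + 2) + s' * (s' ^ m * q ^ (m + 2)) := by rw [hq']; ring
    rw [h2]
    exact (IsCoprime.add_mul_left_left_iff).2 hrs.pow_left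
  have hdvd' : q' ∣ p' ^ (m + 2) + s' ^ (m + 1) := by
    apply (hq'q.pow_right (n := m + 2)).dvd_of_dvd_mul_right
    have h2 : (p' ^ (m + 2) + s' ^ (m + 1)) * q ^ (m + 2) =
        ((r + p * q') ^ (m + 2) - r ^ (m + 2)) + q' := by
      rw [add_mul, ← mul_pow, mul_comm p' q, ← hp', hq']; ring
    rw [h2]
    apply dvd_add _ dvd_rfl
    refine dvd_trans ?_ (sub_dvd_pow_sub_pow _ _ _)
    rw [add_sub_cancel_left]
    exact dvd_mul_left _ _
  refine ⟨p', hp'.symm, hdvd', ?_, hq's'.symm⟩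
  obtain ⟨t', ht'⟩ := hdvd'
  have h2 : IsCoprime (p' ^ (m + 2)) q' := by
    have h3 : p' ^ (m + 2) = -s' ^ (m + 1) + q' * t' := by linarith
    rw [h3]
    apply (IsCoprime.add_mul_left_left_iff).2
    rw [IsCoprime.neg_left_iff]
    exact (hq's'.symm).pow_left
  exact (IsCoprime.pow_left_iff (by omega)).1 h2

/-- the sizes in the second construction -/
lemma size₂ {n : ℕ} (hn : 2 ≤ n) {w κ ν : ℝ} (hw : (n : ℝ) ≤ w)
    (hκ : κ = w * n / (n - 1)) (hν0 : 0 ≤ ν) (hν : ν ≤ 1 - ((n : ℝ) - 1) / w) {q : ℝ} (hq : 3 ≤ q) :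
    ∃ T Y : ℝ, q ≤ T ∧ 1 ≤ Y ∧ T ^ (n - 1) = q ^ w ∧ T ^ n = q ^ κ ∧ Y ^ (n - 1) = (T ^ n) ^ ν ∧
      Y ^ (n - 1) * q ^ n ≤ T ^ n := by
  have hnR : (2 : ℝ) ≤ n := by exact_mod_cast hn
  have hq0 : 0 < q := by linarith
  have hq1 : 1 ≤ q := by linarith
  have hw0 : 0 < w := by linarith
  have hn1 : (0 : ℝ) < n - 1 := by linarith
  have hcast : ((n - 1 : ℕ) : ℝ) = n - 1 := by
    rw [Nat.cast_sub (by omega)]; simp
  have hT : (q ^ (w / (n - 1))) ^ n = q ^ κ := by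
    rw [← Real.rpow_natCast, ← Real.rpow_mul hq0.le]
    congr 1
    rw [hκ]; ring
  have hY : (q ^ (κ * ν / (n - 1))) ^ (n - 1) = q ^ (κ * ν) := by
    rw [← Real.rpow_natCast, ← Real.rpow_mul hq0.le, hcast]
    congr 1
    field_simp
  refine ⟨q ^ (w / (n - 1)), q ^ (κ * ν / (n - 1)), ?_, ?_, ?_, hT, ?_, ?_⟩
  · calc q = q ^ (1 : ℝ) := (Real.rpow_one q).symm
      _ ≤ _ := by
        apply Real.rpow_le_rpow_of_exponent_le hq1
        rw [le_div_iff₀ hn1]; linarith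
  · apply Real.one_le_rpow hq1
    have : 0 ≤ κ := by rw [hκ]; positivity
    positivity
  · rw [← Real.rpow_natCast, ← Real.rpow_mul hq0.le, hcast]
    congr 1
    field_simp
  · rw [hT, hY, Real.rpow_mul hq0.le]
  · rw [hT, hY, ← Real.rpow_natCast, ← Real.rpow_add hq0]
    apply Real.rpow_le_rpow_of_exponent_le hq1
    have h1 : κ * ((n - 1) / w) = n := by rw [hκ]; field_simp
    have h2 : 0 ≤ κ := by rw [hκ]; positivity
    have h3 : κ * ν ≤ κ * (1 - ((n : ℝ) - 1) / w) := by gcongr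
    linarith

/-- the invariant of the second construction -/
structure I₂ (n : ℕ) (ν : ℝ) (p q : ℕ) (N : ℤ) : Prop where
  inv : Inv n ν (1 / 8 ^ n) (8 ^ n) p q N
  q3 : 3 ≤ q
  odd : Odd q
  p2 : 2 * p < q
  s : ∃ s : ℕ, Nat.Coprime s q ∧ N = -(s : ℤ) ^ (n - 1)

lemma pow8 {n : ℕ} (hn : 1 ≤ n) : (6 : ℝ) ^ n + 2 ^ n ≤ 8 ^ n := by
  induction n, hn using Nat.le_induction with
  | base => norm_num
  | succ n hn ih =>
    have h1 : (0 : ℝ) < 6 ^ n := by positivity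
    have h2 : (0 : ℝ) < 2 ^ n := by positivity
    rw [pow_succ, pow_succ, pow_succ]
    linarith

lemma start₂ {n : ℕ} (hn : 2 ≤ n) {ν : ℝ} (hν : 0 ≤ ν) (hν1 : ν ≤ 1) :
    I₂ n ν 1 (1 + 2 ^ (n - 1)) (-2 ^ (n - 1)) := by
  obtain ⟨m, rfl⟩ : ∃ m, n = m + 2 := ⟨n - 2, by omega⟩
  rw [show m + 2 - 1 = m + 1 by omega]
  have h8 := pow8 (show 1 ≤ m + 2 by omega)
  have h2 : (2 : ℝ) ≤ 2 ^ (m + 1) := by
    calc (2 : ℝ) = 2 ^ 1 := (pow_one _).symm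
      _ ≤ 2 ^ (m + 1) := pow_le_pow_right₀ (by norm_num) (by omega)
  have h2N : 2 ≤ 2 ^ (m + 1) := by exact_mod_cast h2
  have h2' : (2 : ℝ) ^ (m + 2) = 2 * 2 ^ (m + 1) := by ring
  have h4 : (0 : ℝ) < 6 ^ (m + 2) := by positivity
  have h80 : (0 : ℝ) < 8 ^ (m + 2) := by positivity
  obtain ⟨Q, hQ⟩ : ∃ Q : ℝ, Q = 1 + 2 ^ (m + 1) := ⟨_, rfl⟩
  have hQc : ((1 + 2 ^ (m + 1) : ℕ) : ℝ) = Q := by rw [hQ]; push_cast; ring
  have hQ1 : 1 ≤ Q := by linarith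
  have hQν : Q ^ ν ≤ Q := by
    calc Q ^ ν ≤ Q ^ (1 : ℝ) := Real.rpow_le_rpow_of_exponent_le hQ1 hν1
      _ = Q := Real.rpow_one _
  have hQν1 : 1 ≤ Q ^ ν := Real.one_le_rpow hQ1 hν
  have hle : 1 / 8 ^ (m + 2) * Q ^ ν ≤ 1 := by
    rw [one_div, inv_mul_le_iff₀ h80, mul_one]
    linarith
  have hNabs : |(((-2 ^ (m + 1) : ℤ)) : ℝ)| = 2 ^ (m + 1) := by
    push_cast
    rw [abs_neg, abs_of_pos (by positivity)]
  have hodd : Odd (1 + 2 ^ (m + 1)) := by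
    rw [pow_succ]; exact ⟨2 ^ m, by ring⟩
  refine ⟨⟨by omega, by omega, Nat.coprime_one_left _, ?_, ?_, ?_, ?_, ?_⟩, by omega, hodd,
    by omega, 2, ?_, ?_⟩
  · push_cast
    rw [one_pow, sub_neg_eq_add]
  · rw [abs_neg, abs_of_pos (by positivity)]
    push_cast
    linarith
  · rw [hNabs, hQc]; linarith
  · rw [hNabs, hQc]; linarith
  · rw [hNabs, hQc]
    calc (2 : ℝ) ^ (m + 1) ≤ 8 ^ (m + 2) * 1 := by linarith
      _ ≤ 8 ^ (m + 2) * Q ^ ν := by gcongr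
  · rw [Nat.coprime_two_left]; exact hodd
  · push_cast; rfl

end Pool.Agent.Q271.UA
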