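import Pool.Agent.Q271.UA.Mono

/-!
# Exponents of numbers with a controlled sequence of very good rational approximations
-/

set_option autoImplicit false

namespace Pool.Agent.Q271.UA

open Polynomial

/-- the `w` for which `|P(ζ)| ≤ H(P) ^ (-w)` for infinitely many nonzero integral polynomials `P` of
degree at most `n`: the supremum is `w_n(ζ)` -/
def W (n : ℕ) (ζ : ℝ) : Set ℝ :=
  {w | {P : ℤ[X] | P ≠ 0 ∧ P.natDegree ≤ n ∧ |aeval ζ P| ≤ (height P : ℝ) ^ (-w)}.Infinite}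

/-- the `w` for which `|ζ - α| ≤ H(α) ^ (-w-1)` for infinitely many algebraic numbers `α` of degree
at most `n`, with minimal polynomial `f`: the supremum is `w_n^*(ζ)` -/
def WStar (n : ℕ) (ζ : ℝ) : Set ℝ :=
  {w | {α : ℂ | ∃ f : ℤ[X], Irreducible f ∧ aeval α f = 0 ∧ f.natDegree ≤ n ∧
    ‖(ζ : ℂ) - α‖ ≤ (height f : ℝ) ^ (-w - 1)}.Infinite}

/-- the `w` such that for all large `X` there is a monic integral polynomial `P` of degree at most
`n` with `H(P) ≤ X` and `|P(ζ)| ≤ X ^ (-w)` -/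
def UInt (n : ℕ) (ζ : ℝ) : Set ℝ :=
  {w | ∃ X₀ : ℝ, ∀ X : ℝ, X₀ ≤ X → ∃ P : ℤ[X], P.Monic ∧ P.natDegree ≤ n ∧
    (height P : ℝ) ≤ X ∧ |aeval ζ P| ≤ X ^ (-w)}

/-- the `w` such that for all large `X` there is an algebraic integer `α` of degree at most `n`, with
minimal polynomial `f`, such that `H(α) ≤ X` and `|ζ - α| ≤ H(α) ^ (-1) X ^ (-w)` -/
def UStarInt (n : ℕ) (ζ : ℝ) : Set ℝ :=
  {w | ∃ X₀ : ℝ, ∀ X : ℝ, X₀ ≤ X → ∃ (α : ℂ) (f : ℤ[X]), Irreducible f ∧ f.Monic ∧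
    aeval α f = 0 ∧ f.natDegree ≤ n ∧ (height f : ℝ) ≤ X ∧
    ‖(ζ : ℂ) - α‖ ≤ (height f : ℝ)⁻¹ * X ^ (-w)}

/-- the class `D_{n,w}` -/
def ClassD (n : ℕ) (w : ℝ) : Set ℝ :=
  {ζ | Transcendental ℚ ζ ∧ ∀ m, 1 ≤ m → m ≤ n → IsLUB (W m ζ) w ∧ IsLUB (WStar m ζ) w}

/-- a number with a controlled sequence of good approximations -/
structure Data (n : ℕ) (w κ ν : ℝ) (ζ : ℝ) where
  p : ℕ → ℕ
  q : ℕ → ℕ
  c : ℝ
  C : ℝ
  N : ℕ → ℤ
  c_pos : 0 < c
  C_ge : 1 ≤ C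
  ζ_le : |ζ| ≤ 1
  q2 : ∀ k, 2 ≤ q k
  grow : ∀ k, 2 * q k ≤ q (k + 1)
  half : ∀ k, 2 * p k ≤ q k
  cop : ∀ k, Nat.Coprime (p k) (q k)
  up : ∀ k, (q (k + 1) : ℝ) ≤ C * (q k : ℝ) ^ κ
  lo : ∀ k, c * (q k : ℝ) ^ (-(w + 1)) ≤ |ζ - (p k : ℝ) / q k|
  hi : ∀ k, |ζ - (p k : ℝ) / q k| ≤ C * (q k : ℝ) ^ (-(w + 1))
  N_dvd : ∀ k, (q k : ℤ) ∣ (p k : ℤ) ^ n - N k
  N_abs : ∀ k, |N k| ≤ (q k : ℤ)
  N_le : ∀ k, |(N k : ℝ)| ≤ C * (q k : ℝ) ^ ν
  low : ∀ k (P : ℤ[X]), P.Monic → P.natDegree ≤ n →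
    c * (q k : ℝ) ^ (-((n : ℝ) - ν)) ≤ |aeval ((p k : ℝ) / q k) P|

lemma isLUB_of {S : Set ℝ} {w : ℝ} (h1 : ∀ x, w < x → x ∉ S) (h2 : ∀ x, x < w → x ∈ S) :
    IsLUB S w := by
  refine ⟨fun x hx => ?_, fun b hb => ?_⟩
  · by_contra hcon
    exact h1 x (not_le.1 hcon) hx
  · by_contra hcon
    have h3 := hb (h2 ((b + w) / 2) (by linarith [not_le.1 hcon]))
    linarith [not_le.1 hcon]

/-- `A ≤ x ^ s` for all large `x` -/
lemma exists_large (A : ℝ) {s : ℝ} (hs : 0 < s) : ∃ B : ℝ, 1 ≤ B ∧ ∀ x : ℝ, B ≤ x → A ≤ x ^ s := by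
  refine ⟨max 1 ((max A 1) ^ (1 / s)), le_max_left _ _, fun x hx => ?_⟩
  have h0 : 0 ≤ max A 1 := le_trans zero_le_one (le_max_right _ _)
  have h1 : (max A 1) ^ (1 / s) ≤ x := (le_max_right _ _).trans hx
  calc A ≤ max A 1 := le_max_left _ _
    _ = ((max A 1) ^ (1 / s)) ^ s := by
        rw [← Real.rpow_mul h0, one_div_mul_cancel hs.ne', Real.rpow_one]
    _ ≤ x ^ s := Real.rpow_le_rpow (by positivity) h1 hs.le

namespace Data

variable {n : ℕ} {w κ ν : ℝ} {ζ : ℝ} (D : Data n w κ ν ζ)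
include D

lemma k_le (k : ℕ) : k ≤ D.q k := by
  induction k with
  | zero => omega
  | succ k ih => have := D.grow k; have := D.q2 k; omega

lemma q_pos (k : ℕ) : (0 : ℝ) < D.q k := by
  have := D.q2 k
  exact_mod_cast (by omega : 0 < D.q k)

lemma one_le_q (k : ℕ) : (1 : ℝ) ≤ D.q k := by
  have := D.q2 k
  exact_mod_cast (by omega : 1 ≤ D.q k)

lemma q_strictMono : StrictMono D.q := by
  apply strictMono_nat_of_lt_succ
  intro k
  have := D.grow k
  have := D.q2 k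
  omega

lemma x_le (k : ℕ) : |(D.p k : ℝ) / D.q k| ≤ 1 := by
  rw [abs_of_nonneg (by positivity), div_le_one (D.q_pos k)]
  have := D.half k
  exact_mod_cast (by omega : D.p k ≤ D.q k)

lemma height_lin (k : ℕ) : height (lin (D.p k) (D.q k)) = D.q k := by
  have h1 : 2 * D.p k ≤ D.q k := D.half k
  apply le_antisymm
  · unfold height
    apply Finset.sup_le
    intro i _
    rw [lin_coeff]
    split_ifs
    · simp
    · simp; omega
    · simp
  · have := natAbs_coeff_le (lin (D.p k) (D.q k)) 1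
    rw [lin_coeff] at this
    simpa using this

lemma abs_lin (k : ℕ) : |aeval ζ (lin (D.p k) (D.q k))| = D.q k * |ζ - (D.p k : ℝ) / D.q k| := by
  rw [aeval_lin]
  have h := D.q_pos k
  rw [show (D.q k : ℝ) * ζ - D.p k = D.q k * (ζ - (D.p k : ℝ) / D.q k) by field_simp, abs_mul,
    abs_of_pos h]

lemma lin_lo (k : ℕ) : D.c * (D.q k : ℝ) ^ (-w) ≤ |aeval ζ (lin (D.p k) (D.q k))| := by
  rw [D.abs_lin]
  have h := D.q_pos k
  have h1 := mul_le_mul_of_nonneg_left (D.lo k) h.le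
  refine le_trans (le_of_eq ?_) h1
  have e : (D.q k : ℝ) * (D.q k : ℝ) ^ (-(w + 1)) = (D.q k : ℝ) ^ (-w) := by
    rw [show -w = 1 + -(w + 1) by ring, Real.rpow_add h, Real.rpow_one]
  calc D.c * (D.q k : ℝ) ^ (-w) = D.c * ((D.q k : ℝ) * (D.q k : ℝ) ^ (-(w + 1))) := by rw [e]
    _ = _ := by ring

lemma lin_hi (k : ℕ) : |aeval ζ (lin (D.p k) (D.q k))| ≤ D.C * (D.q k : ℝ) ^ (-w) := by
  rw [D.abs_lin]
  have h := D.q_pos k
  have h1 := mul_le_mul_of_nonneg_left (D.hi k) h.le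
  refine h1.trans (le_of_eq ?_)
  have e : (D.q k : ℝ) * (D.q k : ℝ) ^ (-(w + 1)) = (D.q k : ℝ) ^ (-w) := by
    rw [show -w = 1 + -(w + 1) by ring, Real.rpow_add h, Real.rpow_one]
  calc (D.q k : ℝ) * (D.C * (D.q k : ℝ) ^ (-(w + 1))) =
      D.C * ((D.q k : ℝ) * (D.q k : ℝ) ^ (-(w + 1))) := by ring
    _ = _ := by rw [e]

/-- the difference of the values at `ζ` and at `p / q` -/
lemma diff_le (P : ℤ[X]) {d : ℕ} (hd : P.natDegree ≤ d) (k : ℕ) :
    |aeval ζ P - aeval ((D.p k : ℝ) / D.q k) P| ≤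
      K d * height P * (D.C * (D.q k : ℝ) ^ (-(w + 1))) := by
  have h1 := abs_sub_le P hd ζ ((D.p k : ℝ) / D.q k) (by linarith [D.ζ_le]) (by linarith [D.x_le k])
  refine h1.trans ?_
  have := K_pos d
  apply mul_le_mul_of_nonneg_left (D.hi k) (by positivity)

/-- **lower bound for all polynomials** -/
lemma lower (hn : 1 ≤ n) (hw : (n : ℝ) ≤ w) (hκ : n * κ ≤ w * (w + 1 - n)) (m : ℕ) :
    m ≤ n → ∃ c' : ℝ, 0 < c' ∧ ∀ P : ℤ[X], P ≠ 0 → P.natDegree ≤ m →
      c' * (height P : ℝ) ^ (-w) ≤ |aeval ζ P| := by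
  have hnR : (1 : ℝ) ≤ n := by exact_mod_cast hn
  have hw0 : 0 < w := by linarith
  induction m with
  | zero =>
    intro _
    refine ⟨1, one_pos, fun P hP hPd => ?_⟩
    obtain ⟨a, ha⟩ : ∃ a : ℤ, P = Polynomial.C a := ⟨P.coeff 0, eq_C_of_natDegree_le_zero hPd⟩
    have ha0 : a ≠ 0 := by rintro rfl; exact hP (by rw [ha, Polynomial.C_0])
    have h1 : aeval ζ P = a := by rw [ha]; simp
    rw [h1, one_mul]
    have h2 : (1 : ℝ) ≤ |(a : ℝ)| := by rw [← Int.cast_abs]; exact_mod_cast Int.one_le_abs ha0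
    refine le_trans ?_ h2
    exact Real.rpow_le_one_of_one_le_of_nonpos (one_le_height' hP) (by linarith)
  | succ m ih =>
    intro hm
    obtain ⟨cm, hcm, hlow⟩ := ih (by omega)
    have hK := K_pos n
    have hC := D.C_ge
    have hc := D.c_pos
    obtain ⟨c0, hc0⟩ : ∃ c0, c0 = 1 / (2 * K n * D.C) := ⟨_, rfl⟩
    have hc0p : 0 < c0 := by rw [hc0]; positivity
    have hc01 : c0 ≤ 1 := by
      rw [hc0, div_le_one (by positivity)]
      nlinarith
    have hc0K : K n * c0 * D.C = 1 / 2 := by rw [hc0]; field_simp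
    obtain ⟨L, hL⟩ : ∃ L, L = w + 1 - n := ⟨_, rfl⟩
    have hL0 : 0 < L := by rw [hL]; linarith
    refine ⟨min (min (1 / 2 * ((D.q 0 : ℝ) ^ n)⁻¹) (1 / 2 * (D.C ^ n)⁻¹ * c0 ^ w))
      (D.c * cm * 2 ^ (-w)), ?_, ?_⟩
    · have := D.q_pos 0
      apply lt_min (lt_min _ _) _ <;> positivity
    intro P hP hPd
    have hH := one_le_height' hP
    have hH0 : (0 : ℝ) < height P := by linarith
    -- the first `k` with `H < c0 q_k ^ L`
    have hex : ∃ k, (height P : ℝ) < c0 * (D.q k : ℝ) ^ L := by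
      obtain ⟨B, hB1, hB⟩ := exists_large ((height P + 1) / c0) hL0
      obtain ⟨k, hk⟩ := exists_nat_ge B
      refine ⟨k, ?_⟩
      have h1 := hB (D.q k) (hk.trans (by exact_mod_cast D.k_le k))
      rw [div_le_iff₀ hc0p] at h1
      linarith
    classical
    obtain ⟨k, hk, hkmin⟩ : ∃ k, (height P : ℝ) < c0 * (D.q k : ℝ) ^ L ∧
        ∀ j < k, ¬ (height P : ℝ) < c0 * (D.q j : ℝ) ^ L :=
      ⟨Nat.find hex, Nat.find_spec hex, fun j hj => Nat.find_min hex hj⟩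
    have hqk := D.q_pos k
    by_cases h0 : aeval ((D.p k : ℝ) / D.q k) P = 0
    · -- a multiple of `q X - p`
      refine le_trans (mul_le_mul_of_nonneg_right (min_le_right _ _) (by positivity)) ?_
      obtain ⟨R, hR⟩ := exists_factor P (by exact_mod_cast hqk) (D.cop k) h0
      have hR0 : R ≠ 0 := by rintro rfl; exact hP (by rw [hR, mul_zero])
      have hlin0 := lin_ne_zero (D.p k) (D.q k) (by exact_mod_cast hqk)
      have hRd : R.natDegree ≤ m := by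
        rw [hR, natDegree_mul hlin0 hR0, lin_natDegree _ _ (by exact_mod_cast hqk)] at hPd
        omega
      have h1 := hlow R hR0 hRd
      have h2 := D.lin_lo k
      have h3 : (D.q k : ℝ) * height R ≤ 2 * height P := by
        rw [hR]; exact height_factor (by exact_mod_cast hqk) (D.half k) R
      have hHR := one_le_height' hR0
      have h4 : (2 : ℝ) ^ (-w) * (height P : ℝ) ^ (-w) ≤
          (D.q k : ℝ) ^ (-w) * (height R : ℝ) ^ (-w) := by
        rw [← Real.mul_rpow (by norm_num) hH0.le, ← Real.mul_rpow hqk.le (by linarith)]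
        exact Real.rpow_le_rpow_of_nonpos (by positivity) h3 (by linarith)
      rw [hR, map_mul, abs_mul, ← hR]
      calc D.c * cm * 2 ^ (-w) * (height P : ℝ) ^ (-w)
          = (D.c * cm) * (2 ^ (-w) * (height P : ℝ) ^ (-w)) := by ring
        _ ≤ (D.c * cm) * ((D.q k : ℝ) ^ (-w) * (height R : ℝ) ^ (-w)) :=
            mul_le_mul_of_nonneg_left h4 (by positivity)
        _ = (D.c * (D.q k : ℝ) ^ (-w)) * (cm * (height R : ℝ) ^ (-w)) := by ring
        _ ≤ _ := mul_le_mul h2 h1 (by positivity) (abs_nonneg _)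
    · have hPn : P.natDegree ≤ n := by omega
      have h1 := inv_pow_le P hPn (D.p k) (D.q k) (by exact_mod_cast hqk) h0
      have h2 := D.diff_le P hPn k
      have e1 : (D.q k : ℝ) ^ L * (D.q k : ℝ) ^ (-(w + 1)) = ((D.q k : ℝ) ^ n)⁻¹ := by
        rw [← Real.rpow_add hqk, show L + -(w + 1) = -(n : ℝ) by rw [hL]; ring,
          Real.rpow_neg hqk.le, Real.rpow_natCast]
      have h3 : K n * height P * (D.C * (D.q k : ℝ) ^ (-(w + 1))) ≤ 1 / 2 * ((D.q k : ℝ) ^ n)⁻¹ := by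
        calc K n * height P * (D.C * (D.q k : ℝ) ^ (-(w + 1)))
            ≤ K n * (c0 * (D.q k : ℝ) ^ L) * (D.C * (D.q k : ℝ) ^ (-(w + 1))) := by gcongr
          _ = (K n * c0 * D.C) * ((D.q k : ℝ) ^ L * (D.q k : ℝ) ^ (-(w + 1))) := by ring
          _ = _ := by rw [hc0K, e1]
      have h4 : 1 / 2 * ((D.q k : ℝ) ^ n)⁻¹ ≤ |aeval ζ P| := by
        have h5 := abs_sub_abs_le_abs_sub (aeval ((D.p k : ℝ) / D.q k) P) (aeval ζ P)
        rw [abs_sub_comm] at h5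
        linarith
      refine le_trans ?_ h4
      rcases Nat.eq_zero_or_pos k with hk0 | hk0
      · subst hk0
        have h6 : (height P : ℝ) ^ (-w) ≤ 1 :=
          Real.rpow_le_one_of_one_le_of_nonpos hH (by linarith)
        calc _ ≤ (1 / 2 * ((D.q 0 : ℝ) ^ n)⁻¹) * (height P : ℝ) ^ (-w) :=
              mul_le_mul_of_nonneg_right ((min_le_left _ _).trans (min_le_left _ _)) (by positivity)
          _ ≤ (1 / 2 * ((D.q 0 : ℝ) ^ n)⁻¹) * 1 := mul_le_mul_of_nonneg_left h6 (by positivity)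
          _ = _ := mul_one _
      · obtain ⟨j, rfl⟩ : ∃ j, k = j + 1 := ⟨k - 1, by omega⟩
        have h6 := hkmin j (by omega)
        push Not at h6
        have hqj := D.q_pos j
        have h7 := D.up j
        have h8 : (D.q (j + 1) : ℝ) ^ n ≤ D.C ^ n * (height P / c0) ^ w := by
          have h9 : ((D.q j : ℝ) ^ κ) ^ n ≤ (height P / c0) ^ w := by
            have h10 : ((D.q j : ℝ) ^ κ) ^ n = ((D.q j : ℝ) ^ L) ^ (n * κ / L) := by
              rw [← Real.rpow_natCast, ← Real.rpow_mul hqj.le, ← Real.rpow_mul hqj.le]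
              congr 1
              field_simp
            have h11 : (D.q j : ℝ) ^ L ≤ height P / c0 := by rw [le_div_iff₀ hc0p]; linarith
            have h12 : 1 ≤ (D.q j : ℝ) ^ L := Real.one_le_rpow (D.one_le_q j) hL0.le
            rw [h10]
            have h13 : n * κ / L ≤ w := by
              rw [div_le_iff₀ hL0, hL]; exact hκ
            calc ((D.q j : ℝ) ^ L) ^ (n * κ / L) ≤ ((D.q j : ℝ) ^ L) ^ w :=
                  Real.rpow_le_rpow_of_exponent_le h12 h13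
              _ ≤ _ := Real.rpow_le_rpow (by linarith) h11 hw0.le
          calc (D.q (j + 1) : ℝ) ^ n ≤ (D.C * (D.q j : ℝ) ^ κ) ^ n :=
                pow_le_pow_left₀ (D.q_pos _).le h7 n
            _ = D.C ^ n * ((D.q j : ℝ) ^ κ) ^ n := mul_pow _ _ _
            _ ≤ _ := mul_le_mul_of_nonneg_left h9 (by positivity)
        calc _ ≤ (1 / 2 * (D.C ^ n)⁻¹ * c0 ^ w) * (height P : ℝ) ^ (-w) :=
              mul_le_mul_of_nonneg_right ((min_le_left _ _).trans (min_le_right _ _)) (by positivity)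
          _ = 1 / 2 * (D.C ^ n * (height P / c0) ^ w)⁻¹ := by
              rw [Real.div_rpow hH0.le hc0p.le, Real.rpow_neg hH0.le]
              field_simp
          _ ≤ 1 / 2 * ((D.q (j + 1) : ℝ) ^ n)⁻¹ := by
              apply mul_le_mul_of_nonneg_left _ (by norm_num)
              exact inv_anti₀ (by positivity) h8

end Data

end Pool.Agent.Q271.UA
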