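import Pool.Agent.Q271.UA.Basic

/-!
# Monic polynomials with prescribed value at a rational point, and real roots near a point
-/

set_option autoImplicit false

namespace Pool.Agent.Q271.UA

open Polynomial

lemma rep {p q : ℕ} (hq : 0 < q) (hc : Nat.Coprime p q) (m : ℕ) : ∀ M : ℤ, ∃ a : ℕ → ℤ,
    (∀ i, 1 ≤ i → 0 ≤ a i ∧ a i < q) ∧
      ∑ i ∈ Finset.range (m + 1), a i * (p : ℤ) ^ i * (q : ℤ) ^ (m - i) = M := by
  have hqZ : (0 : ℤ) < q := by exact_mod_cast hq
  induction m with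
  | zero =>
    intro M
    refine ⟨fun i => if i = 0 then M else 0, fun i hi => ?_, by simp⟩
    simp only [if_neg (show ¬ i = 0 by omega)]
    exact ⟨le_rfl, hqZ⟩
  | succ m ih =>
    intro M
    have hcop : IsCoprime ((p : ℤ) ^ (m + 1)) (q : ℤ) :=
      (Nat.isCoprime_iff_coprime.2 hc).pow_left
    obtain ⟨u, v, huv⟩ := hcop
    obtain ⟨r, hr⟩ : ∃ r : ℤ, r = (M * u) % q := ⟨_, rfl⟩
    have hr0 : 0 ≤ r := by rw [hr]; exact Int.emod_nonneg _ hqZ.ne'
    have hr1 : r < q := by rw [hr]; exact Int.emod_lt_of_pos _ hqZ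
    have hdvd : (q : ℤ) ∣ M - r * p ^ (m + 1) := by
      have h1 : (q : ℤ) ∣ M * u - r := by rw [hr]; exact Int.dvd_self_sub_emod
      have h2 : M - r * (p : ℤ) ^ (m + 1) = (M * u - r) * p ^ (m + 1) + q * (M * v) := by
        have : M = M * (u * p ^ (m + 1) + v * q) := by rw [huv, mul_one]
        linear_combination this
      rw [h2]
      exact dvd_add (h1.mul_right _) (dvd_mul_right _ _)
    obtain ⟨M', hM'⟩ := hdvd
    obtain ⟨a, ha1, ha2⟩ := ih M'
    refine ⟨fun i => if i = m + 1 then r else a i, fun i hi => ?_, ?_⟩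
    · by_cases h : i = m + 1
      · simp only [h, if_true]; exact ⟨hr0, hr1⟩
      · simp only [h, if_false]; exact ha1 i hi
    · rw [Finset.sum_range_succ]
      have h1 : ∑ i ∈ Finset.range (m + 1),
          (if i = m + 1 then r else a i) * (p : ℤ) ^ i * (q : ℤ) ^ (m + 1 - i) =
          q * ∑ i ∈ Finset.range (m + 1), a i * (p : ℤ) ^ i * (q : ℤ) ^ (m - i) := by
        rw [Finset.mul_sum]
        apply Finset.sum_congr rfl
        intro i hi
        rw [Finset.mem_range] at hi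
        rw [if_neg (by omega), show m + 1 - i = (m - i) + 1 by omega, pow_succ]
        ring
      rw [h1, ha2]
      simp only [if_true, Nat.sub_self, pow_zero, mul_one]
      linarith

/-- a monic polynomial of degree `n` and height at most `3 q` with value `N / q ^ n` at `p / q` -/
lemma exists_monic {n p q : ℕ} (hn : 1 ≤ n) (hq : 2 ≤ q) (hpq : 2 * p ≤ q)
    (hc : Nat.Coprime p q) (N : ℤ) (hN : (q : ℤ) ∣ (p : ℤ) ^ n - N) (hN2 : |N| ≤ (q : ℤ) ^ n) :
    ∃ P : ℤ[X], P.Monic ∧ P.natDegree = n ∧ aeval ((p : ℝ) / q) P = N / (q : ℝ) ^ n ∧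
      (height P : ℝ) ≤ 3 * q := by
  obtain ⟨m, rfl⟩ : ∃ m, n = m + 1 := ⟨n - 1, by omega⟩
  obtain ⟨M, hM⟩ := hN
  obtain ⟨a, ha1, ha2⟩ := rep (by omega : 0 < q) hc m (-M)
  obtain ⟨S, hS⟩ : ∃ S : ℤ[X], S = ∑ i ∈ Finset.range (m + 1), C (a i) * X ^ i := ⟨_, rfl⟩
  have hScoeff : ∀ i, S.coeff i = if i < m + 1 then a i else 0 := by
    intro i
    rw [hS, finsetSum_coeff]
    simp only [coeff_C_mul, coeff_X_pow]
    by_cases h : i < m + 1
    · rw [if_pos h, Finset.sum_eq_single_of_mem i (Finset.mem_range.2 h)]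
      · simp
      · intro j _ hj
        rw [if_neg (fun h => hj h.symm), mul_zero]
    · rw [if_neg h]
      apply Finset.sum_eq_zero
      intro j hj
      rw [Finset.mem_range] at hj
      rw [if_neg (by omega), mul_zero]
  have hSdeg : S.degree < ((m + 1 : ℕ) : WithBot ℕ) := by
    rw [degree_lt_iff_coeff_zero]
    intro i hi
    rw [hScoeff, if_neg (by omega)]
  have hqR : (2 : ℝ) ≤ q := by exact_mod_cast hq
  have hq0 : (0 : ℝ) < q := by linarith
  have hx0 : (0 : ℝ) ≤ (p : ℝ) / q := by positivity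
  have hx1 : (p : ℝ) / q ≤ 1 / 2 := by
    rw [div_le_iff₀ hq0]
    have : 2 * (p : ℝ) ≤ q := by exact_mod_cast hpq
    linarith
  have hval : aeval ((p : ℝ) / q) (X ^ (m + 1) + S) = N / (q : ℝ) ^ (m + 1) := by
    have h1 : aeval ((p : ℝ) / q) S = ∑ i ∈ Finset.range (m + 1), (a i : ℝ) * ((p : ℝ) / q) ^ i := by
      rw [hS, map_sum]
      apply Finset.sum_congr rfl
      intro i _
      simp
    have h2 : (q : ℝ) ^ m * ∑ i ∈ Finset.range (m + 1), (a i : ℝ) * ((p : ℝ) / q) ^ i = -M := by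
      have h3 : ((∑ i ∈ Finset.range (m + 1), a i * (p : ℤ) ^ i * (q : ℤ) ^ (m - i) : ℤ) : ℝ) = -M := by
        rw [ha2]; push_cast; ring
      rw [← h3, Finset.mul_sum]
      push_cast
      apply Finset.sum_congr rfl
      intro i hi
      rw [Finset.mem_range] at hi
      obtain ⟨j, rfl⟩ : ∃ j, m = i + j := ⟨m - i, by omega⟩
      rw [Nat.add_sub_cancel_left, pow_add, div_pow]
      field_simp
    have h4 : ((p : ℝ)) ^ (m + 1) - N = q * M := by exact_mod_cast hM
    rw [map_add, h1, map_pow, aeval_X, eq_div_iff (by positivity), add_mul, div_pow,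
      div_mul_cancel₀ _ (by positivity), pow_succ (q : ℝ) m]
    have h5 : (∑ i ∈ Finset.range (m + 1), (a i : ℝ) * ((p : ℝ) / q) ^ i) * ((q : ℝ) ^ m * q) =
        q * ((q : ℝ) ^ m * ∑ i ∈ Finset.range (m + 1), (a i : ℝ) * ((p : ℝ) / q) ^ i) := by ring
    rw [h5, h2]
    linarith
  have hmon : (X ^ (m + 1) + S).Monic := monic_X_pow_add hSdeg
  have hnd : (X ^ (m + 1) + S).natDegree = m + 1 := by
    apply natDegree_eq_of_degree_eq_some
    rw [degree_add_eq_left_of_degree_lt (by rwa [degree_X_pow]), degree_X_pow]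
  refine ⟨X ^ (m + 1) + S, hmon, hnd, hval, ?_⟩
  have ha : ∀ i, 1 ≤ i → |(a i : ℝ)| ≤ q := by
    intro i hi
    obtain ⟨h1, h2⟩ := ha1 i hi
    rw [abs_of_nonneg (by exact_mod_cast h1)]
    exact_mod_cast h2.le
  have ha0 : |(a 0 : ℝ)| ≤ q + 2 := by
    have h1 : aeval ((p : ℝ) / q) S = a 0 +
        ∑ i ∈ Finset.range m, (a (i + 1) : ℝ) * ((p : ℝ) / q) ^ (i + 1) := by
      rw [hS, map_sum, Finset.sum_range_succ', add_comm]
      congr 1
      · simp
      · apply Finset.sum_congr rfl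
        intro i _
        simp
    rw [map_add, h1, map_pow, aeval_X] at hval
    have h2 : |∑ i ∈ Finset.range m, (a (i + 1) : ℝ) * ((p : ℝ) / q) ^ (i + 1)| ≤ q := by
      calc |∑ i ∈ Finset.range m, (a (i + 1) : ℝ) * ((p : ℝ) / q) ^ (i + 1)|
          ≤ ∑ i ∈ Finset.range m, (q : ℝ) * (1 / 2) ^ (i + 1) := by
            refine (Finset.abs_sum_le_sum_abs _ _).trans (Finset.sum_le_sum fun i _ => ?_)
            rw [abs_mul, abs_pow, abs_of_nonneg hx0]
            exact mul_le_mul (ha _ (by omega)) (pow_le_pow_left₀ hx0 hx1 _) (by positivity)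
              (by positivity)
        _ = q * (1 - (1 / 2) ^ m) := by
            rw [← Finset.mul_sum]
            congr 1
            have : ∀ m : ℕ, ∑ i ∈ Finset.range m, ((1 : ℝ) / 2) ^ (i + 1) = 1 - (1 / 2) ^ m := by
              intro m
              induction m with
              | zero => simp
              | succ m ih => rw [Finset.sum_range_succ, ih, pow_succ]; ring
            exact this m
        _ ≤ q := by
            have : (0 : ℝ) ≤ (1 / 2) ^ m := by positivity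
            nlinarith
    have h3 : |(N : ℝ) / (q : ℝ) ^ (m + 1)| ≤ 1 := by
      rw [abs_div, abs_of_pos (by positivity : (0 : ℝ) < (q : ℝ) ^ (m + 1)), div_le_one (by positivity)]
      exact_mod_cast hN2
    have h4 : |((p : ℝ) / q) ^ (m + 1)| ≤ 1 := by
      rw [abs_pow, abs_of_nonneg hx0]
      exact pow_le_one₀ hx0 (by linarith)
    have h5 : (a 0 : ℝ) = N / (q : ℝ) ^ (m + 1) - ((p : ℝ) / q) ^ (m + 1) -
        ∑ i ∈ Finset.range m, (a (i + 1) : ℝ) * ((p : ℝ) / q) ^ (i + 1) := by linarith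
    rw [h5]
    rw [abs_le] at h2 h3 h4 ⊢
    constructor <;> linarith [h2.1, h2.2, h3.1, h3.2, h4.1, h4.2]
  apply height_le_of (by positivity)
  intro i
  rw [coeff_add, coeff_X_pow, hScoeff]
  by_cases h : i < m + 1
  · rw [if_neg (by omega), if_pos h, zero_add]
    rcases Nat.eq_zero_or_pos i with h0 | h0
    · subst h0; linarith
    · have := ha i h0; linarith
  · rw [if_neg h, add_zero]
    split_ifs
    · simp; linarith
    · simp

/-- a real root near `ζ` -/
lemma exists_root (P : ℤ[X]) {n : ℕ} (hn : P.natDegree ≤ n) (hP : P ≠ 0) (ζ : ℝ) (hζ : |ζ| ≤ 1)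
    (hder : (height P : ℝ) / 4 ≤ |aeval ζ (derivative P)|)
    (hsmall : 64 * K n * |aeval ζ P| ≤ height P) :
    ∃ α : ℝ, |α - ζ| ≤ 8 * |aeval ζ P| / height P ∧ aeval α P = 0 := by
  have hH : (1 : ℝ) ≤ height P := one_le_height' hP
  have hK := K_pos n
  obtain ⟨v, hv⟩ : ∃ v, v = |aeval ζ P| := ⟨_, rfl⟩
  obtain ⟨D, hD⟩ : ∃ D, D = |aeval ζ (derivative P)| := ⟨_, rfl⟩
  rw [← hv] at hsmall ⊢
  rw [← hD] at hder
  have hv0 : 0 ≤ v := by rw [hv]; exact abs_nonneg _
  have hD0 : 0 < D := by linarith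
  obtain ⟨δ, hδ⟩ : ∃ δ, δ = 2 * v / D := ⟨_, rfl⟩
  have hδ0 : 0 ≤ δ := by rw [hδ]; positivity
  have hδD : D * δ = 2 * v := by rw [hδ]; field_simp
  have hδ1 : δ ≤ 8 * v / height P := by
    rw [hδ, div_le_div_iff₀ hD0 (by linarith)]
    nlinarith
  have hδH : height P * δ ≤ 8 * v := by
    rw [le_div_iff₀ (by linarith)] at hδ1
    linarith
  have hδ2 : δ ≤ 1 := by
    have h1 : 8 * v ≤ height P := by nlinarith
    refine hδ1.trans ?_
    rw [div_le_one (by linarith)]
    exact h1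
  have herr : K n * height P * δ ^ 2 ≤ v := by
    -- K H δ² ≤ K (8 v) δ ≤ ... 
    have h1 : K n * height P * δ ^ 2 = K n * (height P * δ) * δ := by ring
    have h2 : K n * (height P * δ) * δ ≤ K n * (8 * v) * δ := by gcongr
    have h3 : K n * (8 * v) * δ = v * (8 * K n * δ) := by ring
    have h4 : 8 * K n * δ ≤ 1 := by
      have h5 : 8 * K n * (height P * δ) ≤ height P := by
        calc 8 * K n * (height P * δ) ≤ 8 * K n * (8 * v) := by gcongr
          _ = 64 * K n * v := by ring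
          _ ≤ height P := hsmall
      have h6 : (8 * K n * δ) * height P ≤ 1 * height P := by linarith
      exact le_of_mul_le_mul_right h6 (by linarith)
    nlinarith
  have hx : ∀ s : ℝ, |s| = 1 → |aeval (ζ + s * δ) P - aeval ζ P - aeval ζ (derivative P) * (s * δ)| ≤ v := by
    intro s hs
    have h1 : |s * δ| = δ := by rw [abs_mul, hs, one_mul, abs_of_nonneg hδ0]
    have h2 : |ζ + s * δ| ≤ 2 := by
      refine (abs_add_le _ _).trans ?_
      rw [h1]; linarith
    have h3 := abs_taylor P hn (ζ + s * δ) ζ h2 (by linarith)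
    rw [add_sub_cancel_left, h1] at h3
    exact h3.trans herr
  have hcont : Continuous fun x : ℝ => aeval x P := P.continuous_aeval
  have hv1 : |aeval ζ P| ≤ v := hv.symm.le
  rw [abs_le] at hv1
  -- a sign `s` with `s P'(ζ) ≥ 0`
  obtain ⟨s, hs, hsD⟩ : ∃ s : ℝ, |s| = 1 ∧ aeval ζ (derivative P) * s = D := by
    rcases le_total 0 (aeval ζ (derivative P)) with h | h
    · exact ⟨1, abs_one, by rw [mul_one, hD, abs_of_nonneg h]⟩
    · exact ⟨-1, by simp, by rw [hD, abs_of_nonpos h]; ring⟩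
  have h1 := hx s hs
  have h2 := hx (-s) (by rw [abs_neg]; exact hs)
  have e1 : aeval ζ (derivative P) * (s * δ) = 2 * v := by rw [← mul_assoc, hsD, hδD]
  have e2 : aeval ζ (derivative P) * (-s * δ) = -(2 * v) := by
    rw [show aeval ζ (derivative P) * (-s * δ) = -(aeval ζ (derivative P) * s * δ) by ring, hsD, hδD]
  rw [e1] at h1
  rw [e2] at h2
  rw [abs_le] at h1 h2
  have hlo : aeval (ζ + -s * δ) P ≤ 0 := by linarith [h2.2]
  have hhi : 0 ≤ aeval (ζ + s * δ) P := by linarith [h1.1]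
  obtain ⟨α, hα1, hα2⟩ := intermediate_value_uIcc (f := fun x : ℝ => aeval x P)
    (a := ζ + -s * δ) (b := ζ + s * δ) hcont.continuousOn
    (Set.mem_uIcc.2 (Or.inl ⟨hlo, hhi⟩))
  refine ⟨α, ?_, hα2⟩
  refine le_trans ?_ hδ1
  have hs' : s = 1 ∨ s = -1 := by
    rcases abs_cases s with h | h
    · left; linarith [h.1, h.2]
    · right; linarith [h.1, h.2]
  rw [Set.mem_uIcc] at hα1
  rw [abs_le]
  rcases hs' with h | h <;> subst h <;> rcases hα1 with h | h <;> constructor <;>
    linarith [h.1, h.2]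

end Pool.Agent.Q271.UA
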