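import Pool.Agent.Q271.UA.ConstrTwo

/-!
# The recursion step of the second construction
-/

set_option autoImplicit false

namespace Pool.Agent.Q271.UA

open Polynomial

lemma exists_r {q s p : ℕ} (hq : 0 < q) (hodd : Odd q) (hs : Nat.Coprime s q) (B : ℕ) :
    ∃ r : ℕ, Odd r ∧ B ≤ r ∧ r < B + 2 * q ∧ (q : ℤ) ∣ s * r - p := by
  obtain ⟨r, h1, h2, h3⟩ := exists_mod hq hs (p : ℤ) B
  rcases Nat.even_or_odd r with h | h
  · refine ⟨r + q, h.add_odd hodd, by omega, by omega, ?_⟩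
    have h4 : (s : ℤ) * ((r + q : ℕ) : ℤ) - p = (s * r - p) + q * s := by push_cast; ring
    rw [h4]
    exact dvd_add h3 (dvd_mul_right _ _)
  · exact ⟨r, h, h1, by omega, h3⟩

lemma core₂ {n : ℕ} (hn : 2 ≤ n) {w κ ν : ℝ} (hw : (n : ℝ) ≤ w)
    (hκ : κ = w * n / (n - 1)) (hν0 : 0 ≤ ν) (hν : ν ≤ 1 - ((n : ℝ) - 1) / w)
    {p q : ℕ} {N : ℤ} (h : I₂ n ν p q N) :
    ∃ (T : ℝ) (s s' : ℕ), (q : ℝ) ≤ T ∧ T ^ n = (q : ℝ) ^ κ ∧ Nat.Coprime s q ∧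
      ∀ r : ℕ, Odd r → T ≤ r → (r : ℝ) ≤ 6 * T → (q : ℤ) ∣ s * r - p →
      ∃ p' q' N', I₂ n ν p' q' N' ∧ Rel w κ (1 / 8 ^ n) (8 ^ n) p q p' q' ∧
        q' = r ^ n + s' ^ (n - 1) * q ^ n := by
  have hnR : (2 : ℝ) ≤ n := by exact_mod_cast hn
  have hw0 : 0 < w := by linarith
  have hν1 : ν ≤ 1 := by
    have : 0 ≤ ((n : ℝ) - 1) / w := by
      apply div_nonneg <;> linarith
    linarith
  obtain ⟨⟨hq2, hhalf, hcop, hdvd, -, -, -, -⟩, hq3, hodd, hp2, s, hs, hN⟩ := h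
  have hq3R : (3 : ℝ) ≤ q := by exact_mod_cast hq3
  have hq0 : (0 : ℝ) < q := by linarith
  obtain ⟨T, Y, hqT, hY1, hT1, hTn, hYn, hYT⟩ := size₂ hn hw hκ hν0 hν hq3R
  have hT0 : 0 < T := by linarith
  have hY0 : 0 < Y := by linarith
  obtain ⟨j, hj1, hj2⟩ := exists_nat_pow_near hY1 (one_lt_two : (1 : ℝ) < 2)
  obtain ⟨s', hs'⟩ : ∃ s' : ℕ, s' = 2 ^ (j + 1) := ⟨_, rfl⟩
  refine ⟨T, s, s', hqT, hTn, hs, fun r hrodd hrT hr4 hr3 => ?_⟩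
  have hs'R : (s' : ℝ) = 2 ^ (j + 1) := by rw [hs']; push_cast; rfl
  obtain ⟨q', hq'⟩ : ∃ q' : ℕ, q' = r ^ n + s' ^ (n - 1) * q ^ n := ⟨_, rfl⟩
  have hrs : IsCoprime (r : ℤ) (s' : ℤ) := by
    rw [Nat.isCoprime_iff_coprime, hs']
    exact (Nat.coprime_two_right.2 hrodd).pow_right _
  obtain ⟨p'z, hp'1, hp'2, hp'3, hp'4⟩ := arith₂ hn (by exact_mod_cast (by omega : 0 < q))
    (Nat.isCoprime_iff_coprime.2 hcop) (Nat.isCoprime_iff_coprime.2 hs)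
    (by rw [hN, sub_neg_eq_add] at hdvd; exact hdvd) hr3 hrs
    (q' := (q' : ℤ)) (by rw [hq']; push_cast; rfl)
  -- real sizes
  have hr0 : (0 : ℝ) < r := by linarith
  have hs1 : Y ≤ s' := by rw [hs'R]; exact hj2.le
  have hs2 : (s' : ℝ) ≤ 2 * Y := by rw [hs'R, pow_succ]; linarith
  have hs0 : (0 : ℝ) < s' := by linarith
  have hq'R : (q' : ℝ) = (r : ℝ) ^ n + (s' : ℝ) ^ (n - 1) * (q : ℝ) ^ n := by
    rw [hq']; push_cast; ring
  have hsn1 : Y ^ (n - 1) ≤ (s' : ℝ) ^ (n - 1) := pow_le_pow_left₀ hY0.le hs1 _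
  have hsn2 : (s' : ℝ) ^ (n - 1) ≤ 2 ^ n * Y ^ (n - 1) := by
    calc (s' : ℝ) ^ (n - 1) ≤ (2 * Y) ^ (n - 1) := pow_le_pow_left₀ hs0.le hs2 _
      _ = 2 ^ (n - 1) * Y ^ (n - 1) := mul_pow _ _ _
      _ ≤ _ := by
        apply mul_le_mul_of_nonneg_right _ (by positivity)
        exact pow_le_pow_right₀ (by norm_num) (by omega)
  have hrn1 : T ^ n ≤ (r : ℝ) ^ n := pow_le_pow_left₀ hT0.le hrT _
  have hrn2 : (r : ℝ) ^ n ≤ 6 ^ n * T ^ n := by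
    rw [← mul_pow]; exact pow_le_pow_left₀ hr0.le hr4 _
  have hqn0 : (0 : ℝ) < (q : ℝ) ^ n := by positivity
  have hTn0 : 0 < T ^ n := by positivity
  have h8n : (0 : ℝ) < 8 ^ n := by positivity
  have hq'lo : T ^ n ≤ q' := by
    rw [hq'R]
    have : 0 ≤ (s' : ℝ) ^ (n - 1) * (q : ℝ) ^ n := by positivity
    linarith
  have hq'hi : (q' : ℝ) ≤ 8 ^ n * T ^ n := by
    rw [hq'R]
    calc (r : ℝ) ^ n + (s' : ℝ) ^ (n - 1) * (q : ℝ) ^ n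
        ≤ 6 ^ n * T ^ n + (2 ^ n * Y ^ (n - 1)) * (q : ℝ) ^ n := by gcongr
      _ = 6 ^ n * T ^ n + 2 ^ n * (Y ^ (n - 1) * (q : ℝ) ^ n) := by ring
      _ ≤ 6 ^ n * T ^ n + 2 ^ n * T ^ n := by gcongr
      _ = (6 ^ n + 2 ^ n) * T ^ n := by ring
      _ ≤ 8 ^ n * T ^ n := by
        apply mul_le_mul_of_nonneg_right (pow8 (by omega)) hTn0.le
  have hsqn : (s' : ℝ) ^ (n - 1) * (q : ℝ) ^ n ≤ q' := by
    rw [hq'R]
    have : 0 ≤ (r : ℝ) ^ n := by positivity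
    linarith
  have hqn9 : 9 ≤ (q : ℝ) ^ n := by
    calc (9 : ℝ) = 3 ^ 2 := by norm_num
      _ ≤ (q : ℝ) ^ 2 := pow_le_pow_left₀ (by norm_num) hq3R 2
      _ ≤ (q : ℝ) ^ n := pow_le_pow_right₀ (by linarith) hn
  have hqnq : (q : ℝ) ≤ (q : ℝ) ^ n := le_self_pow₀ (by linarith) (by omega)
  have hs2' : (2 : ℝ) ≤ s' := by
    rw [hs'R]
    calc (2 : ℝ) = 2 ^ 1 := (pow_one _).symm
      _ ≤ 2 ^ (j + 1) := pow_le_pow_right₀ (by norm_num) (by omega)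
  have hsn0 : (2 : ℝ) ≤ (s' : ℝ) ^ (n - 1) :=
    hs2'.trans (le_self_pow₀ (by linarith) (by omega))
  have hgrow : 2 * (q : ℝ) ≤ q' := by
    refine le_trans ?_ hsqn
    gcongr
  have hq'1 : (1 : ℝ) ≤ q' := by linarith
  have hq'0 : (0 : ℝ) < q' := by linarith
  have hq'ν : (q' : ℝ) ^ ν ≤ q' := by
    calc (q' : ℝ) ^ ν ≤ (q' : ℝ) ^ (1 : ℝ) := Real.rpow_le_rpow_of_exponent_le hq'1 hν1
      _ = q' := Real.rpow_one _
  have hlo : 1 / 8 ^ n * (q' : ℝ) ^ ν ≤ (s' : ℝ) ^ (n - 1) := by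
    refine le_trans ?_ hsn1
    rw [one_div, inv_mul_le_iff₀ h8n, hYn]
    calc (q' : ℝ) ^ ν ≤ (8 ^ n * T ^ n) ^ ν := Real.rpow_le_rpow hq'0.le hq'hi hν0
      _ = (8 ^ n) ^ ν * (T ^ n) ^ ν := Real.mul_rpow h8n.le hTn0.le
      _ ≤ (8 ^ n) ^ (1 : ℝ) * (T ^ n) ^ ν := by
        apply mul_le_mul_of_nonneg_right _ (by positivity)
        exact Real.rpow_le_rpow_of_exponent_le (one_le_pow₀ (by norm_num)) hν1
      _ = _ := by rw [Real.rpow_one]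
  have hhalf' : (s' : ℝ) ^ (n - 1) ≤ q' / 2 := by
    have h1 : (s' : ℝ) ^ (n - 1) * 2 ≤ (s' : ℝ) ^ (n - 1) * (q : ℝ) ^ n := by
      apply mul_le_mul_of_nonneg_left _ (by positivity)
      linarith
    linarith
  have h8half : 1 / (8 : ℝ) ^ n ≤ 1 / 2 := by
    apply one_div_le_one_div_of_le (by norm_num)
    calc (2 : ℝ) ≤ 8 ^ 1 := by norm_num
      _ ≤ 8 ^ n := pow_le_pow_right₀ (by norm_num) (by omega)
  have hlo' : 1 / 8 ^ n * (q' : ℝ) ^ ν ≤ q' / 2 := by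
    calc 1 / 8 ^ n * (q' : ℝ) ^ ν ≤ 1 / 2 * q' := by gcongr
      _ = q' / 2 := by ring
  have hhi : (s' : ℝ) ^ (n - 1) ≤ 8 ^ n * (q' : ℝ) ^ ν := by
    refine hsn2.trans ?_
    rw [hYn]
    have h1 : (T ^ n) ^ ν ≤ (q' : ℝ) ^ ν := Real.rpow_le_rpow hTn0.le hq'lo hν0
    have h2 : (2 : ℝ) ^ n ≤ 8 ^ n := pow_le_pow_left₀ (by norm_num) (by norm_num) n
    gcongr
  -- the numerator
  have hqZ : (0 : ℤ) < q := by exact_mod_cast (by omega : 0 < q)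
  have hq'Z : (0 : ℤ) < q' := by exact_mod_cast hq'0
  have hrZ : (3 : ℤ) ≤ r := by
    have : (3 : ℝ) ≤ r := by linarith
    exact_mod_cast this
  have hp'0 : 0 < p'z := by
    have h2 : (0 : ℤ) < q * p'z := by rw [hp'1]; positivity
    exact (mul_pos_iff_of_pos_left hqZ).1 h2
  obtain ⟨p', rfl⟩ : ∃ p' : ℕ, (p' : ℤ) = p'z := ⟨p'z.toNat, Int.toNat_of_nonneg hp'0.le⟩
  have hrq' : (2 * r : ℤ) < q' := by
    have h1 : (r : ℤ) ^ 2 ≤ (r : ℤ) ^ n := pow_le_pow_right₀ (by linarith) hn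
    have h2 : (q' : ℤ) = (r : ℤ) ^ n + (s' : ℤ) ^ (n - 1) * (q : ℤ) ^ n := by
      rw [hq']; push_cast; ring
    have h3 : (0 : ℤ) ≤ (s' : ℤ) ^ (n - 1) * (q : ℤ) ^ n := by positivity
    nlinarith
  have hp2' : 2 * p' < q' := by
    have h1 : (q : ℤ) * (2 * p') < q * q' := by
      have h2 : (2 * p : ℤ) + 1 ≤ q := by exact_mod_cast hp2
      have h3 : (2 * p + 1 : ℤ) * q' ≤ q * q' := by gcongr
      have h4 : (q : ℤ) * (2 * p') = 2 * r + 2 * p * q' := by linarith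
      rw [h4]
      linarith
    have h2 := lt_of_mul_lt_mul_left h1 hqZ.le
    exact_mod_cast h2
  have hNabs : |((-(s' : ℤ) ^ (n - 1) : ℤ) : ℝ)| = (s' : ℝ) ^ (n - 1) := by
    push_cast
    rw [abs_neg, abs_of_pos (by positivity)]
  have hoddq' : Odd q' := by
    rw [hq']
    apply Odd.add_even hrodd.pow
    apply Even.mul_right
    rw [hs']
    apply Even.pow_of_ne_zero _ (by omega)
    rw [pow_succ]
    exact even_two.mul_left _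
  have hx : (p' : ℝ) / q' - (p : ℝ) / q = r / (q * q') := by
    have h1 : (q : ℝ) * p' = r + p * q' := by exact_mod_cast hp'1
    field_simp
    linarith
  have hw1 : (q : ℝ) ^ (-(w + 1)) = 1 / (q * T ^ (n - 1)) := by
    rw [hT1, Real.rpow_neg hq0.le, Real.rpow_add hq0, Real.rpow_one, mul_comm, one_div]
  have hTT : T * T ^ (n - 1) = T ^ n := by
    rw [← pow_succ']; congr 1; omega
  have hT10 : 0 < T ^ (n - 1) := by positivity
  refine ⟨p', q', -(s' : ℤ) ^ (n - 1), ⟨⟨?_, hp2'.le, Nat.isCoprime_iff_coprime.1 hp'3, ?_, ?_,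
    ?_, ?_, ?_⟩, ?_, hoddq', hp2', s', Nat.isCoprime_iff_coprime.1 hp'4, rfl⟩, ⟨?_, ?_, ?_, ?_⟩, hq'⟩
  · have : (2 : ℝ) ≤ q' := by linarith
    exact_mod_cast this
  · rw [sub_neg_eq_add]; exact hp'2
  · rw [abs_neg, abs_of_nonneg (by positivity)]
    have : (s' : ℝ) ^ (n - 1) ≤ q' := by linarith
    exact_mod_cast this
  · rw [hNabs]; exact hlo
  · rw [hNabs]; linarith
  · rw [hNabs]; exact hhi
  · have : (3 : ℝ) ≤ q' := by linarith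
    exact_mod_cast this
  · exact_mod_cast hgrow
  · rw [← hTn]; exact hq'hi
  · rw [hx, hw1, one_div_mul_one_div, div_le_div_iff₀ (by positivity) (by positivity)]
    calc 1 * ((q : ℝ) * q') ≤ 1 * (q * (8 ^ n * T ^ n)) := by gcongr
      _ = T * (8 ^ n * (q * T ^ (n - 1))) := by rw [← hTT]; ring
      _ ≤ r * (8 ^ n * (q * T ^ (n - 1))) := by gcongr
  · rw [hx, hw1, ← mul_div_assoc, mul_one, div_le_div_iff₀ (by positivity) (by positivity)]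
    have h4 : (6 : ℝ) ≤ 8 ^ n := by
      calc (6 : ℝ) ≤ 8 ^ 1 := by norm_num
        _ ≤ 8 ^ n := pow_le_pow_right₀ (by norm_num) (by omega)
    calc (r : ℝ) * (q * T ^ (n - 1)) ≤ (6 * T) * (q * T ^ (n - 1)) := by gcongr
      _ = 6 * (q * T ^ n) := by rw [← hTT]; ring
      _ ≤ 8 ^ n * (q * q') := by gcongr

lemma step₂ {n : ℕ} (hn : 2 ≤ n) {w κ ν : ℝ} (hw : 2 * (n : ℝ) ≤ w)
    (hκ : κ = w * n / (n - 1)) (hν0 : 0 ≤ ν) (hν : ν ≤ 1 - ((n : ℝ) - 1) / w) (a : ℝ)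
    {p q : ℕ} {N : ℤ} (h : I₂ n ν p q N) :
    ∃ p' q' N', I₂ n ν p' q' N' ∧ Rel w κ (1 / 8 ^ n) (8 ^ n) p q p' q' ∧
      a ∉ Ival w (8 ^ n) p' q' := by
  have hnR : (2 : ℝ) ≤ n := by exact_mod_cast hn
  obtain ⟨T, s, s', hqT, hTn, hs, hcore⟩ := core₂ hn (by linarith) hκ hν0 hν h
  have hq3 := h.q3
  have hodd := h.odd
  have hq3R : (3 : ℝ) ≤ q := by exact_mod_cast hq3
  have hT0 : 0 < T := by linarith
  obtain ⟨r, hrodd, hr1, hr2, hr3⟩ := exists_r (p := p) (by omega : 0 < q) hodd hs ⌈T⌉₊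
  have hrT : T ≤ r := (Nat.le_ceil T).trans (by exact_mod_cast hr1)
  have hr4 : (r : ℝ) ≤ T + 1 + 2 * q := by
    have h1 : (r : ℝ) ≤ ⌈T⌉₊ + 2 * q := by exact_mod_cast hr2.le
    have h2 := Nat.ceil_lt_add_one hT0.le
    linarith
  obtain ⟨p1, q1, N1, hI1, hR1, he1⟩ := hcore r hrodd hrT (by linarith) hr3
  obtain ⟨p2, q2, N2, hI2, hR2, he2⟩ := hcore (r + 2 * q) (hrodd.add_even (even_two_mul q))
    (by push_cast; linarith) (by push_cast; linarith) (by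
      have h4 : (s : ℤ) * ((r + 2 * q : ℕ) : ℤ) - p = (s * r - p) + q * (2 * s) := by
        push_cast; ring
      rw [h4]
      exact dvd_add hr3 (dvd_mul_right _ _))
  by_cases ha : a ∈ Ival w (8 ^ n) p1 q1
  · refine ⟨p2, q2, N2, hI2, hR2, fun ha2 => ?_⟩
    have hlt : q1 < q2 := by
      rw [he1, he2]
      have : r ^ n < (r + 2 * q) ^ n := Nat.pow_lt_pow_left (by omega) (by omega)
      omega
    have hq1' := hI1.q3
    have hq10 : (3 : ℝ) ≤ q1 := by exact_mod_cast hq1'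
    have hq1p : (0 : ℝ) < q1 := by linarith
    have hltR : (q1 : ℝ) < q2 := by exact_mod_cast hlt
    have hq2p : (0 : ℝ) < q2 := by linarith
    have h8n : (0 : ℝ) < 8 ^ n := by positivity
    -- distinct fractions
    have hne : (p1 : ℤ) * q2 - p2 * q1 ≠ 0 := by
      intro h0
      have h1 : p1 * q2 = p2 * q1 := by
        have : (p1 : ℤ) * q2 = p2 * q1 := by linarith
        exact_mod_cast this
      have h2 : q2 ∣ q1 := by
        apply hI2.inv.cop.symm.dvd_of_dvd_mul_left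
        rw [← h1]; exact dvd_mul_left _ _
      have := Nat.le_of_dvd (by omega) h2
      omega
    have h1 : (1 : ℝ) / (q1 * q2) ≤ |(p1 : ℝ) / q1 - (p2 : ℝ) / q2| := by
      have h2 : (p1 : ℝ) / q1 - (p2 : ℝ) / q2 = ((p1 : ℤ) * q2 - p2 * q1 : ℤ) / (q1 * q2) := by
        push_cast
        field_simp
      rw [h2, abs_div, abs_of_pos (by positivity : (0 : ℝ) < q1 * q2)]
      gcongr
      rw [← Int.cast_abs]
      exact_mod_cast Int.one_le_abs hne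
    have h4 : (q1 : ℝ) ^ (-(w + 1)) ≤ ((q1 : ℝ) ^ 5)⁻¹ := by
      rw [← Real.rpow_natCast, ← Real.rpow_neg hq1p.le]
      apply Real.rpow_le_rpow_of_exponent_le (by linarith)
      push_cast
      linarith
    have h5 : (q2 : ℝ) ^ (-(w + 1)) ≤ (q1 : ℝ) ^ (-(w + 1)) :=
      Real.rpow_le_rpow_of_nonpos hq1p hltR.le (by linarith)
    have h6 : |(p1 : ℝ) / q1 - (p2 : ℝ) / q2| ≤ 2 * 8 ^ n * ((q1 : ℝ) ^ 5)⁻¹ := by
      have h7 := ha.1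
      have h8 := ha.2
      have h9 := ha2.1
      have h10 := ha2.2
      have h11 : 2 * 8 ^ n * (q1 : ℝ) ^ (-(w + 1)) ≤ 2 * 8 ^ n * ((q1 : ℝ) ^ 5)⁻¹ := by gcongr
      have h12 : 2 * 8 ^ n * (q2 : ℝ) ^ (-(w + 1)) ≤ 2 * 8 ^ n * ((q1 : ℝ) ^ 5)⁻¹ := by
        refine le_trans ?_ h11
        gcongr
      rw [abs_le]; constructor <;> linarith
    -- the sizes
    have hTq1 : T ^ n ≤ q1 := by
      have h7 : T ^ n ≤ (r : ℝ) ^ n := pow_le_pow_left₀ hT0.le hrT n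
      rw [he1]; push_cast
      have : (0 : ℝ) ≤ (s' : ℝ) ^ (n - 1) * (q : ℝ) ^ n := by positivity
      linarith
    have hq2T : (q2 : ℝ) ≤ 8 ^ n * T ^ n := by rw [hTn]; exact hR2.up
    have hT9 : (9 : ℝ) ^ n ≤ T ^ n := by
      rw [hTn]
      have hκ2 : 2 * (n : ℝ) ≤ κ := by
        rw [hκ, le_div_iff₀ (by linarith)]
        nlinarith
      calc (9 : ℝ) ^ n = (3 ^ 2) ^ n := by norm_num
        _ = 3 ^ (2 * n) := (pow_mul _ _ _).symm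
        _ ≤ (q : ℝ) ^ (2 * n) := pow_le_pow_left₀ (by norm_num) hq3R _
        _ = (q : ℝ) ^ ((2 * n : ℕ) : ℝ) := (Real.rpow_natCast _ _).symm
        _ ≤ (q : ℝ) ^ κ := by
          apply Real.rpow_le_rpow_of_exponent_le (by linarith)
          push_cast; exact hκ2
    have h7 : (1 : ℝ) / (q1 * q2) ≤ 2 * 8 ^ n * ((q1 : ℝ) ^ 5)⁻¹ := h1.trans h6
    rw [← div_eq_mul_inv, div_le_div_iff₀ (by positivity) (by positivity)] at h7
    have h8 : (q1 : ℝ) ^ 5 ≤ 2 * 8 ^ n * (q1 * (8 ^ n * q1)) := by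
      calc (q1 : ℝ) ^ 5 = 1 * (q1 : ℝ) ^ 5 := (one_mul _).symm
        _ ≤ 2 * 8 ^ n * (q1 * q2) := h7
        _ ≤ 2 * 8 ^ n * (q1 * (8 ^ n * q1)) := by
          have : (q2 : ℝ) ≤ 8 ^ n * q1 := hq2T.trans (by gcongr)
          gcongr
    have h9 : (q1 : ℝ) ^ 3 ≤ 2 * 64 ^ n := by
      have h10 : (64 : ℝ) ^ n = 8 ^ n * 8 ^ n := by rw [← mul_pow]; norm_num
      have h11 : (q1 : ℝ) ^ 3 * (q1 ^ 2) ≤ 2 * 64 ^ n * (q1 ^ 2) := by
        rw [h10]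
        calc (q1 : ℝ) ^ 3 * (q1 ^ 2) = (q1 : ℝ) ^ 5 := by ring
          _ ≤ _ := h8
          _ = _ := by ring
      exact le_of_mul_le_mul_right h11 (by positivity)
    have h10 : (729 : ℝ) ^ n ≤ (q1 : ℝ) ^ 3 := by
      calc (729 : ℝ) ^ n = (9 ^ 3) ^ n := by norm_num
        _ = (9 ^ n) ^ 3 := by rw [← pow_mul, ← pow_mul, mul_comm]
        _ ≤ (q1 : ℝ) ^ 3 := pow_le_pow_left₀ (by positivity) (hT9.trans hTq1) 3
    have h11 : (729 : ℝ) ^ n = (729 / 64) ^ n * 64 ^ n := by rw [← mul_pow]; norm_num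
    have h12 : (3 : ℝ) ≤ (729 / 64) ^ n := by
      calc (3 : ℝ) ≤ (729 / 64) ^ 1 := by norm_num
        _ ≤ (729 / 64) ^ n := pow_le_pow_right₀ (by norm_num) (by omega)
    have h13 : (0 : ℝ) < 64 ^ n := by positivity
    have h14 : 3 * (64 : ℝ) ^ n ≤ (729 / 64) ^ n * 64 ^ n := by gcongr
    linarith
  · exact ⟨p1, q1, N1, hI1, hR1, ha⟩

/-- **second construction** -/
theorem constr₂ {n : ℕ} (hn : 2 ≤ n) {w ν : ℝ} (hw : 2 * (n : ℝ) ≤ w)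
    (hν0 : 0 ≤ ν) (hν : ν ≤ 1 - ((n : ℝ) - 1) / w) :
    ∃ ζ : ℝ, Transcendental ℚ ζ ∧ Nonempty (Data n w (w * n / (n - 1)) ν ζ) := by
  have hnR : (2 : ℝ) ≤ n := by exact_mod_cast hn
  have hw0 : 0 < w := by linarith
  have hν1 : ν ≤ 1 := by
    have : 0 ≤ ((n : ℝ) - 1) / w := by
      apply div_nonneg <;> linarith
    linarith
  have h8 : (1 : ℝ) ≤ 8 ^ n := one_le_pow₀ (by norm_num)
  exact build_rec (by omega) hw0.le hν1 (by positivity)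
    (by rw [div_le_one (by positivity)]; exact h8) h8 (I₂ n ν)
    ⟨_, _, _, start₂ hn hν0 hν1⟩ (fun _ _ _ h => h.inv)
    (fun a _ _ _ h => step₂ hn hw rfl hν0 hν a h)

end Pool.Agent.Q271.UA
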