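import Pool.Agent.Q271.UA.Classes

/-!
# The uniform exponents of approximation by monic polynomials and by algebraic integers
-/

set_option autoImplicit false

namespace Pool.Agent.Q271.UA

open Polynomial

namespace Data

variable {n : ℕ} {w κ ν : ℝ} {ζ : ℝ} (D : Data n w κ ν ζ)
include D

lemma exists_k {G : ℝ} (hG : 0 < G) (k₀ : ℕ) (X : ℝ) (hX : G * D.q k₀ ≤ X) :
    ∃ k, k₀ ≤ k ∧ G * D.q k ≤ X ∧ X < G * D.q (k + 1) := by
  classical
  have hex : ∃ j, X < G * D.q j := by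
    obtain ⟨j, hj⟩ := exists_nat_gt (X / G)
    refine ⟨j, ?_⟩
    rw [div_lt_iff₀ hG] at hj
    have : (j : ℝ) ≤ D.q j := by exact_mod_cast D.k_le j
    nlinarith
  obtain ⟨j, hj, hmin⟩ : ∃ j, X < G * D.q j ∧ ∀ i < j, ¬ X < G * D.q i :=
    ⟨Nat.find hex, Nat.find_spec hex, fun i hi => Nat.find_min hex hi⟩
  have hj0 : k₀ < j := by
    by_contra hcon
    have h1 : (D.q j : ℝ) ≤ D.q k₀ := by
      exact_mod_cast D.q_strictMono.monotone (not_lt.1 hcon)
    nlinarith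
  obtain ⟨i, rfl⟩ : ∃ i, j = i + 1 := ⟨j - 1, by omega⟩
  refine ⟨i, by omega, ?_, hj⟩
  have := hmin i (by omega)
  linarith [not_lt.1 this]

/-- a monic polynomial of height at most `3 q` with a small value at `ζ` -/
lemma base_poly (hn : 2 ≤ n) (hw : (n : ℝ) ≤ w) (hν : 0 ≤ ν) (k : ℕ) :
    ∃ P : ℤ[X], P.Monic ∧ P.natDegree = n ∧ (height P : ℝ) ≤ 3 * D.q k ∧
      |aeval ζ P| ≤ (D.C + 3 * K n * D.C) * (D.q k : ℝ) ^ (-((n : ℝ) - ν)) := by
  have hq := D.q_pos k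
  have hq1 := D.one_le_q k
  have hC := D.C_ge
  have hK := K_pos n
  have hN2 : |D.N k| ≤ (D.q k : ℤ) ^ n := by
    refine (D.N_abs k).trans ?_
    exact le_self_pow₀ (by exact_mod_cast hq1) (by omega)
  obtain ⟨P, hPm, hPd, hPv, hPh⟩ := exists_monic (by omega : 1 ≤ n) (D.q2 k) (D.half k) (D.cop k)
    (D.N k) (D.N_dvd k) hN2
  refine ⟨P, hPm, hPd, hPh, ?_⟩
  have h1 := D.diff_le P hPd.le k
  have h2 : |aeval ((D.p k : ℝ) / D.q k) P| ≤ D.C * (D.q k : ℝ) ^ (-((n : ℝ) - ν)) := by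
    rw [hPv, abs_div, abs_of_pos (by positivity : (0 : ℝ) < (D.q k : ℝ) ^ n)]
    rw [div_le_iff₀ (by positivity)]
    refine (D.N_le k).trans (le_of_eq ?_)
    rw [mul_assoc, ← Real.rpow_natCast, ← Real.rpow_add hq]
    congr 2
    ring
  have h3 : K n * height P * (D.C * (D.q k : ℝ) ^ (-(w + 1))) ≤
      3 * K n * D.C * (D.q k : ℝ) ^ (-((n : ℝ) - ν)) := by
    calc K n * height P * (D.C * (D.q k : ℝ) ^ (-(w + 1)))
        ≤ K n * (3 * D.q k) * (D.C * (D.q k : ℝ) ^ (-(w + 1))) := by gcongr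
      _ = 3 * K n * D.C * ((D.q k : ℝ) * (D.q k : ℝ) ^ (-(w + 1))) := by ring
      _ ≤ 3 * K n * D.C * (D.q k : ℝ) ^ (-((n : ℝ) - ν)) := by
          apply mul_le_mul_of_nonneg_left _ (by positivity)
          have h4 := Real.rpow_add hq 1 (-(w + 1))
          rw [Real.rpow_one] at h4
          rw [← h4]
          exact Real.rpow_le_rpow_of_exponent_le hq1 (by linarith)
  have h5 : |aeval ζ P| ≤ |aeval ((D.p k : ℝ) / D.q k) P| +
      |aeval ζ P - aeval ((D.p k : ℝ) / D.q k) P| := by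
    have := abs_add_le (aeval ((D.p k : ℝ) / D.q k) P) (aeval ζ P - aeval ((D.p k : ℝ) / D.q k) P)
    rwa [add_sub_cancel] at this
  linarith

/-- adding a multiple of `q X - p` -/
lemma add_poly (hn : 2 ≤ n) (k : ℕ) (P : ℤ[X]) (hPm : P.Monic) (hPd : P.natDegree = n)
    (hPh : (height P : ℝ) ≤ 3 * D.q k) (u : ℤ) (hu : 4 * K n + 1 ≤ |(u : ℝ)|) :
    ∃ Q : ℤ[X], Q.Monic ∧ Q.natDegree = n ∧ (height Q : ℝ) ≤ (3 + |(u : ℝ)|) * D.q k ∧
      aeval ζ Q = aeval ζ P + u * aeval ζ (lin (D.p k) (D.q k)) ∧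
      (height Q : ℝ) / 4 ≤ |aeval ζ (derivative Q)| := by
  have hq := D.q_pos k
  have hK := K_pos n
  have hq' : 0 < D.q k := by exact_mod_cast hq
  have hdeg : (Polynomial.C u * lin (D.p k) (D.q k)).degree < P.degree := by
    have h1 : (Polynomial.C u * lin (D.p k) (D.q k)).natDegree ≤ 1 :=
      (natDegree_C_mul_le _ _).trans (lin_natDegree _ _ hq').le
    have h2 : P.degree = (n : WithBot ℕ) := by
      rw [degree_eq_natDegree hPm.ne_zero, hPd]
    rw [h2]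
    refine lt_of_le_of_lt (degree_le_of_natDegree_le h1) ?_
    exact_mod_cast (by omega : 1 < n)
  have hH : (height (P + Polynomial.C u * lin (D.p k) (D.q k)) : ℝ) ≤
      (3 + |(u : ℝ)|) * D.q k := by
    apply height_le_of (by positivity)
    intro i
    rw [coeff_add, coeff_C_mul]
    push_cast
    refine (abs_add_le _ _).trans ?_
    rw [abs_mul]
    have h1 := abs_coeff_le P i
    have h2 := abs_coeff_le (lin (D.p k) (D.q k)) i
    rw [D.height_lin] at h2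
    have h3 : |(u : ℝ)| * |((lin (D.p k) (D.q k)).coeff i : ℝ)| ≤ |(u : ℝ)| * D.q k := by gcongr
    linarith
  refine ⟨P + Polynomial.C u * lin (D.p k) (D.q k), hPm.add_of_left hdeg, ?_, hH, ?_, ?_⟩
  · rw [natDegree_add_eq_left_of_degree_lt hdeg, hPd]
  · simp
  · have h1 : aeval ζ (derivative (P + Polynomial.C u * lin (D.p k) (D.q k))) =
        aeval ζ (derivative P) + u * D.q k := by
      unfold lin
      simp
    rw [h1]
    have h2 := abs_derivative_le P hPd.le ζ (by linarith [D.ζ_le])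
    have h3 : |aeval ζ (derivative P)| ≤ K n * (3 * D.q k) := by
      refine h2.trans ?_
      gcongr
    have h4 : |(u : ℝ) * D.q k| - |aeval ζ (derivative P)| ≤
        |aeval ζ (derivative P) + u * D.q k| := by
      have := abs_sub_abs_le_abs_sub ((u : ℝ) * D.q k) (-aeval ζ (derivative P))
      rw [abs_neg, sub_neg_eq_add, add_comm ((u : ℝ) * D.q k)] at this
      exact this
    rw [abs_mul, abs_of_pos hq] at h4
    refine le_trans ?_ h4
    have h5 : (4 * K n + 1) * D.q k ≤ |(u : ℝ)| * D.q k := by gcongr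
    nlinarith

/-- monic polynomials with small values and large derivatives -/
lemma exists_poly (hn : 2 ≤ n) (hw : (n : ℝ) ≤ w) (hν : 0 ≤ ν) (hν1 : ν ≤ 1) (hκ0 : 0 ≤ κ)
    (hκ : n * κ ≤ w * (w + 1 - n)) :
    ∃ A : ℝ, 0 < A ∧ ∃ X₀ : ℝ, ∀ X : ℝ, X₀ ≤ X → ∃ P : ℤ[X], P.Monic ∧ P.natDegree = n ∧
      (height P : ℝ) ≤ X ∧ |aeval ζ P| ≤ A * X ^ (-(((n : ℝ) - ν) / (w + 1 - n + ν))) ∧
      (height P : ℝ) / 4 ≤ |aeval ζ (derivative P)| ∧ 64 * K n * |aeval ζ P| ≤ height P := by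
  have hnR : (2 : ℝ) ≤ n := by exact_mod_cast hn
  have hK := K_pos n
  have hC := D.C_ge
  have hc := D.c_pos
  obtain ⟨E, hE⟩ : ∃ E, E = w + 1 - n + ν := ⟨_, rfl⟩
  have hE1 : 1 ≤ E := by rw [hE]; linarith
  obtain ⟨e, he⟩ : ∃ e, e = ((n : ℝ) - ν) / (w + 1 - n + ν) := ⟨_, rfl⟩
  have hEe : E * e = n - ν := by
    rw [he, ← hE]; field_simp
  have he0 : 0 < e := by
    rw [he, ← hE]
    apply div_pos <;> linarith
  have hκe : κ * e ≤ w := by
    have h1 : κ * (n - ν) ≤ w * E := by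
      have : κ * (n - ν) ≤ n * κ := by nlinarith
      have : w * (w + 1 - n) ≤ w * E := by
        apply mul_le_mul_of_nonneg_left _ (by linarith)
        rw [hE]; linarith
      linarith
    rw [he, ← hE, ← mul_div_assoc, div_le_iff₀ (by linarith)]
    exact h1
  rw [← he]
  obtain ⟨U, hU⟩ : ∃ U : ℕ, U = ⌈4 * K n⌉₊ + 1 := ⟨_, rfl⟩
  have hU1 : 4 * K n + 1 ≤ U := by
    rw [hU]; push_cast
    linarith [Nat.le_ceil (4 * K n)]
  obtain ⟨A0, hA0⟩ : ∃ A0, A0 = D.C + 3 * K n * D.C := ⟨_, rfl⟩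
  have hA0p : 0 < A0 := by rw [hA0]; positivity
  obtain ⟨B, hB⟩ : ∃ B : ℝ, B = 4 + U + A0 / D.c := ⟨_, rfl⟩
  have hBp : 0 < B := by rw [hB]; positivity
  obtain ⟨A1, hA1⟩ : ∃ A1 : ℝ, A1 = (A0 + U * D.C) * B ^ e := ⟨_, rfl⟩
  have hA1p : 0 < A1 := by rw [hA1]; positivity
  obtain ⟨A2, hA2⟩ : ∃ A2 : ℝ, A2 = (U + 1) * D.C * ((3 + U) * D.C) ^ e := ⟨_, rfl⟩
  have hA2p : 0 < A2 := by rw [hA2]; positivity
  obtain ⟨k₁, hk₁⟩ := D.pow_large (64 * K n * (A0 + U * D.C)) (show 0 < (n : ℝ) - ν by linarith)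
  obtain ⟨k₂, hk₂⟩ := D.pow_large (64 * K n * ((U + 1) * D.C)) (show 0 < w by linarith)
  refine ⟨A1 + A2, by positivity, (3 + U) * D.q (max k₁ k₂), fun X hX => ?_⟩
  obtain ⟨k, hk, hkl, hkr⟩ := D.exists_k (by positivity : (0 : ℝ) < 3 + U) (max k₁ k₂) X hX
  have hq := D.q_pos k
  have hq1 := D.one_le_q k
  have hX0 : 0 < X := lt_of_lt_of_le (by positivity) hkl
  obtain ⟨P, hPm, hPd, hPh, hPv⟩ := D.base_poly hn hw hν k
  rw [← hA0] at hPv
  have hUabs : |((U : ℤ) : ℝ)| = U := by push_cast; exact abs_of_nonneg (Nat.cast_nonneg _)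
  rcases lt_or_ge X (B * (D.q k : ℝ) ^ E) with hXB | hXB
  · obtain ⟨Q, hQm, hQd, hQh, hQv, hQ'⟩ := D.add_poly hn k P hPm hPd hPh (U : ℤ)
      (by rw [hUabs]; exact hU1)
    rw [hUabs] at hQh
    have hv : |aeval ζ Q| ≤ (A0 + U * D.C) * (D.q k : ℝ) ^ (-((n : ℝ) - ν)) := by
      rw [hQv]
      refine (abs_add_le _ _).trans ?_
      rw [abs_mul, hUabs]
      have h1 := D.lin_hi k
      have h2 : (D.q k : ℝ) ^ (-w) ≤ (D.q k : ℝ) ^ (-((n : ℝ) - ν)) :=
        Real.rpow_le_rpow_of_exponent_le hq1 (by linarith)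
      have h3 : (U : ℝ) * |aeval ζ (lin (D.p k) (D.q k))| ≤
          U * (D.C * (D.q k : ℝ) ^ (-((n : ℝ) - ν))) := by
        apply mul_le_mul_of_nonneg_left _ (Nat.cast_nonneg _)
        exact h1.trans (mul_le_mul_of_nonneg_left h2 (by linarith))
      calc _ ≤ A0 * (D.q k : ℝ) ^ (-((n : ℝ) - ν)) +
            U * (D.C * (D.q k : ℝ) ^ (-((n : ℝ) - ν))) := add_le_add hPv h3
        _ = _ := by ring
    refine ⟨Q, hQm, hQd, hQh.trans hkl, ?_, hQ', ?_⟩
    · have h1 : (D.q k : ℝ) ^ (-((n : ℝ) - ν)) ≤ B ^ e * X ^ (-e) := by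
        have h2 : (B * (D.q k : ℝ) ^ E) ^ (-e) ≤ X ^ (-e) :=
          Real.rpow_le_rpow_of_nonpos hX0 hXB.le (by linarith)
        rw [Real.mul_rpow hBp.le (by positivity), ← Real.rpow_mul hq.le,
          show E * -e = -((n : ℝ) - ν) by rw [← hEe]; ring] at h2
        have h3 : B ^ e * (B ^ (-e) * (D.q k : ℝ) ^ (-((n : ℝ) - ν))) ≤ B ^ e * X ^ (-e) := by
          gcongr
        rw [← mul_assoc, ← Real.rpow_add hBp, add_neg_cancel, Real.rpow_zero, one_mul] at h3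
        exact h3
      calc |aeval ζ Q| ≤ (A0 + U * D.C) * (D.q k : ℝ) ^ (-((n : ℝ) - ν)) := hv
        _ ≤ (A0 + U * D.C) * (B ^ e * X ^ (-e)) := by gcongr
        _ = A1 * X ^ (-e) := by rw [hA1]; ring
        _ ≤ (A1 + A2) * X ^ (-e) := by
            apply mul_le_mul_of_nonneg_right _ (by positivity)
            linarith
    · refine le_trans ?_ (one_le_height' hQm.ne_zero)
      have h1 := hk₁ k ((le_max_left _ _).trans hk)
      calc 64 * K n * |aeval ζ Q| ≤ 64 * K n * ((A0 + U * D.C) * (D.q k : ℝ) ^ (-((n : ℝ) - ν))) := by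
            gcongr
        _ = (64 * K n * (A0 + U * D.C)) * (D.q k : ℝ) ^ (-((n : ℝ) - ν)) := by ring
        _ ≤ (D.q k : ℝ) ^ ((n : ℝ) - ν) * (D.q k : ℝ) ^ (-((n : ℝ) - ν)) := by gcongr
        _ = 1 := by rw [← Real.rpow_add hq, add_neg_cancel, Real.rpow_zero]
  · obtain ⟨l, hl⟩ : ∃ l, l = aeval ζ (lin (D.p k) (D.q k)) := ⟨_, rfl⟩
    have hlo := D.lin_lo k
    have hhi := D.lin_hi k
    rw [← hl] at hlo hhi
    have hlabs : 0 < |l| := lt_of_lt_of_le (by positivity) hlo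
    have hl0 : l ≠ 0 := abs_pos.1 hlabs
    obtain ⟨us, hus⟩ : ∃ us, us = -(aeval ζ P) / l := ⟨_, rfl⟩
    obtain ⟨u, hu1, hu2⟩ : ∃ u : ℤ, (U : ℝ) ≤ |(u : ℝ)| ∧ |(u : ℝ) - us| ≤ U + 1 := by
      have h1 := Int.floor_le us
      have h2 := Int.lt_floor_add_one us
      rcases le_or_gt 0 ⌊us⌋ with h | h
      · refine ⟨⌊us⌋ + U, ?_, ?_⟩
        · have h3 : (0 : ℝ) ≤ ⌊us⌋ := by exact_mod_cast h
          push_cast
          rw [abs_of_nonneg (by positivity)]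
          linarith
        · push_cast
          rw [abs_le]; constructor <;> linarith [(Nat.cast_nonneg U : (0 : ℝ) ≤ U)]
      · refine ⟨⌊us⌋ - U, ?_, ?_⟩
        · have h3 : (⌊us⌋ : ℝ) < 0 := by exact_mod_cast h
          have h4 : (0 : ℝ) ≤ U := Nat.cast_nonneg U
          push_cast
          rw [abs_of_nonpos (by linarith)]
          linarith
        · push_cast
          rw [abs_le]; constructor <;> linarith [(Nat.cast_nonneg U : (0 : ℝ) ≤ U)]
    obtain ⟨Q, hQm, hQd, hQh, hQv, hQ'⟩ := D.add_poly hn k P hPm hPd hPh u (hU1.trans hu1)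
    rw [← hl] at hQv
    have hv : |aeval ζ Q| ≤ (U + 1) * D.C * (D.q k : ℝ) ^ (-w) := by
      have h1 : aeval ζ Q = (u - us) * l := by
        rw [hQv, hus]; field_simp; ring
      rw [h1, abs_mul]
      calc |(u : ℝ) - us| * |l| ≤ (U + 1) * (D.C * (D.q k : ℝ) ^ (-w)) :=
            mul_le_mul hu2 hhi (abs_nonneg _) (by positivity)
        _ = _ := by ring
    have hus1 : |us| ≤ A0 / D.c * (D.q k : ℝ) ^ (E - 1) := by
      rw [hus, abs_div, abs_neg, div_le_iff₀ hlabs]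
      refine hPv.trans ?_
      have h1 : (D.q k : ℝ) ^ (E - 1) * (D.q k : ℝ) ^ (-w) = (D.q k : ℝ) ^ (-((n : ℝ) - ν)) := by
        rw [← Real.rpow_add hq]; congr 1; rw [hE]; ring
      calc A0 * (D.q k : ℝ) ^ (-((n : ℝ) - ν))
          = A0 / D.c * (D.q k : ℝ) ^ (E - 1) * (D.c * (D.q k : ℝ) ^ (-w)) := by
            rw [← h1]; field_simp
        _ ≤ _ := mul_le_mul_of_nonneg_left hlo (by positivity)
    have hu3 : |(u : ℝ)| ≤ A0 / D.c * (D.q k : ℝ) ^ (E - 1) + U + 1 := by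
      have h1 := abs_add_le ((u : ℝ) - us) us
      rw [sub_add_cancel] at h1
      linarith
    have hqE : (D.q k : ℝ) ≤ (D.q k : ℝ) ^ E := by
      calc (D.q k : ℝ) = (D.q k : ℝ) ^ (1 : ℝ) := (Real.rpow_one _).symm
        _ ≤ _ := Real.rpow_le_rpow_of_exponent_le hq1 hE1
    have hqE1 : (D.q k : ℝ) ^ (E - 1) * D.q k = (D.q k : ℝ) ^ E := by
      have h1 := Real.rpow_add hq (E - 1) 1
      rw [Real.rpow_one, sub_add_cancel] at h1
      exact h1.symm
    have hheight : (height Q : ℝ) ≤ X := by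
      refine hQh.trans (le_trans ?_ hXB)
      calc (3 + |(u : ℝ)|) * D.q k ≤ (3 + (A0 / D.c * (D.q k : ℝ) ^ (E - 1) + U + 1)) * D.q k := by
            gcongr
        _ = (4 + U) * D.q k + A0 / D.c * ((D.q k : ℝ) ^ (E - 1) * D.q k) := by ring
        _ = (4 + U) * D.q k + A0 / D.c * (D.q k : ℝ) ^ E := by rw [hqE1]
        _ ≤ (4 + U) * (D.q k : ℝ) ^ E + A0 / D.c * (D.q k : ℝ) ^ E := by gcongr
        _ = B * (D.q k : ℝ) ^ E := by rw [hB]; ring
    refine ⟨Q, hQm, hQd, hheight, ?_, hQ', ?_⟩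
    · have h1 : (D.q k : ℝ) ^ (-w) ≤ ((3 + U) * D.C) ^ e * X ^ (-e) := by
        have h0 : X ≤ (3 + U) * D.C * (D.q k : ℝ) ^ κ := by
          calc X ≤ (3 + U) * D.q (k + 1) := hkr.le
            _ ≤ (3 + U) * (D.C * (D.q k : ℝ) ^ κ) := by
                apply mul_le_mul_of_nonneg_left (D.up k) (by positivity)
            _ = _ := by ring
        have hG : (0 : ℝ) < (3 + U) * D.C := by positivity
        have h2 : ((3 + U) * D.C * (D.q k : ℝ) ^ κ) ^ (-e) ≤ X ^ (-e) :=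
          Real.rpow_le_rpow_of_nonpos hX0 h0 (by linarith)
        rw [Real.mul_rpow hG.le (by positivity), ← Real.rpow_mul hq.le] at h2
        have h4 : (D.q k : ℝ) ^ (-w) ≤ (D.q k : ℝ) ^ (κ * -e) :=
          Real.rpow_le_rpow_of_exponent_le hq1 (by linarith)
        have h3 : ((3 + U) * D.C) ^ e * (((3 + U) * D.C) ^ (-e) * (D.q k : ℝ) ^ (κ * -e)) ≤
            ((3 + U) * D.C) ^ e * X ^ (-e) := by
          gcongr
        rw [← mul_assoc, ← Real.rpow_add hG, add_neg_cancel, Real.rpow_zero, one_mul] at h3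
        exact h4.trans h3
      calc |aeval ζ Q| ≤ (U + 1) * D.C * (D.q k : ℝ) ^ (-w) := hv
        _ ≤ (U + 1) * D.C * (((3 + U) * D.C) ^ e * X ^ (-e)) := by gcongr
        _ = A2 * X ^ (-e) := by rw [hA2]; ring
        _ ≤ (A1 + A2) * X ^ (-e) := by
            apply mul_le_mul_of_nonneg_right _ (by positivity)
            linarith
    · refine le_trans ?_ (one_le_height' hQm.ne_zero)
      have h1 := hk₂ k ((le_max_right _ _).trans hk)
      calc 64 * K n * |aeval ζ Q| ≤ 64 * K n * ((U + 1) * D.C * (D.q k : ℝ) ^ (-w)) := by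
            gcongr
        _ = (64 * K n * ((U + 1) * D.C)) * (D.q k : ℝ) ^ (-w) := by ring
        _ ≤ (D.q k : ℝ) ^ w * (D.q k : ℝ) ^ (-w) := by gcongr
        _ = 1 := by rw [← Real.rpow_add hq, add_neg_cancel, Real.rpow_zero]

end Data

end Pool.Agent.Q271.UA
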