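import Pool.Agent.Q271.UA.Uniform

/-!
# The values of the uniform exponents
-/

set_option autoImplicit false

namespace Pool.Agent.Q271.UA

open Polynomial

namespace Data

variable {n : ℕ} {w κ ν : ℝ} {ζ : ℝ} (D : Data n w κ ν ζ)
include D

/-- no monic polynomials with too small values -/
lemma no_small (hn : 2 ≤ n) (hw : (n : ℝ) ≤ w) (hν : 0 ≤ ν) (hν1 : ν ≤ 1) {x : ℝ}
    (hx : ((n : ℝ) - ν) / (w + 1 - n + ν) < x) (M : ℝ) (hM : 0 < M) (X₀ : ℝ) :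
    ∃ X : ℝ, 1 ≤ X ∧ X₀ ≤ X ∧ ∀ P : ℤ[X], P.Monic → P.natDegree ≤ n → (height P : ℝ) ≤ X →
      M * X ^ (-x) < |aeval ζ P| := by
  have hnR : (2 : ℝ) ≤ n := by exact_mod_cast hn
  have hK := K_pos n
  have hC := D.C_ge
  have hc := D.c_pos
  obtain ⟨E, hE⟩ : ∃ E, E = w + 1 - n + ν := ⟨_, rfl⟩
  have hE1 : 1 ≤ E := by rw [hE]; linarith
  rw [← hE, div_lt_iff₀ (by linarith)] at hx
  obtain ⟨c0, hc0⟩ : ∃ c0, c0 = D.c / (2 * K n * D.C) := ⟨_, rfl⟩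
  have hc0p : 0 < c0 := by rw [hc0]; positivity
  have hc0K : K n * c0 * D.C = D.c / 2 := by rw [hc0]; field_simp
  obtain ⟨k₁, hk₁⟩ := D.pow_large ((|X₀| + 1) / c0) (show 0 < E by linarith)
  obtain ⟨k₂, hk₂⟩ := D.pow_large (4 * M * c0 ^ (-x) / D.c)
    (show 0 < x * E - (n - ν) by linarith)
  obtain ⟨k, hk⟩ : ∃ k, k = max k₁ k₂ := ⟨_, rfl⟩
  have h1 := hk₁ k (by rw [hk]; exact le_max_left _ _)
  have h2 := hk₂ k (by rw [hk]; exact le_max_right _ _)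
  have hq := D.q_pos k
  have hq1 := D.one_le_q k
  rw [div_le_iff₀ hc0p, mul_comm] at h1
  have h3 := le_abs_self X₀
  have h4 := abs_nonneg X₀
  refine ⟨c0 * (D.q k : ℝ) ^ E, by linarith, by linarith, fun P hPm hPd hPh => ?_⟩
  have h5 := D.low k P hPm hPd
  have h6 := D.diff_le P hPd k
  have h7 : K n * height P * (D.C * (D.q k : ℝ) ^ (-(w + 1))) ≤
      D.c / 2 * (D.q k : ℝ) ^ (-((n : ℝ) - ν)) := by
    calc K n * height P * (D.C * (D.q k : ℝ) ^ (-(w + 1)))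
        ≤ K n * (c0 * (D.q k : ℝ) ^ E) * (D.C * (D.q k : ℝ) ^ (-(w + 1))) := by gcongr
      _ = (K n * c0 * D.C) * ((D.q k : ℝ) ^ E * (D.q k : ℝ) ^ (-(w + 1))) := by ring
      _ = _ := by
          rw [hc0K, ← Real.rpow_add hq]
          congr 2
          rw [hE]; ring
  have h8 : D.c / 2 * (D.q k : ℝ) ^ (-((n : ℝ) - ν)) ≤ |aeval ζ P| := by
    have h9 := abs_sub_abs_le_abs_sub (aeval ((D.p k : ℝ) / D.q k) P) (aeval ζ P)
    rw [abs_sub_comm] at h9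
    linarith
  refine lt_of_lt_of_le ?_ h8
  rw [Real.mul_rpow hc0p.le (by positivity), ← Real.rpow_mul hq.le]
  rw [div_le_iff₀ hc] at h2
  have h9 : (D.q k : ℝ) ^ (x * E - (n - ν)) * (D.q k : ℝ) ^ (E * -x) =
      (D.q k : ℝ) ^ (-((n : ℝ) - ν)) := by
    rw [← Real.rpow_add hq]; congr 1; ring
  rw [← h9]
  have h10 : (0 : ℝ) < (D.q k : ℝ) ^ (E * -x) := by positivity
  have h11 : (0 : ℝ) < c0 ^ (-x) := by positivity
  have h12 : 0 < M * c0 ^ (-x) := by positivity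
  have h13 : M * c0 ^ (-x) < D.c / 2 * (D.q k : ℝ) ^ (x * E - (n - ν)) := by nlinarith
  calc M * (c0 ^ (-x) * (D.q k : ℝ) ^ (E * -x)) = M * c0 ^ (-x) * (D.q k : ℝ) ^ (E * -x) := by ring
    _ < D.c / 2 * (D.q k : ℝ) ^ (x * E - (n - ν)) * (D.q k : ℝ) ^ (E * -x) := by gcongr
    _ = _ := by ring

lemma isLUB_UInt (hn : 2 ≤ n) (hw : (n : ℝ) ≤ w) (hν : 0 ≤ ν) (hν1 : ν ≤ 1) (hκ0 : 0 ≤ κ)
    (hκ : n * κ ≤ w * (w + 1 - n)) :
    IsLUB (UInt n ζ) (((n : ℝ) - ν) / (w + 1 - n + ν)) := by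
  apply isLUB_of
  · rintro x hx ⟨X₀, hX₀⟩
    obtain ⟨X, -, hX, h⟩ := D.no_small hn hw hν hν1 hx 1 one_pos X₀
    obtain ⟨P, hPm, hPd, hPh, hP⟩ := hX₀ X hX
    have := h P hPm hPd hPh
    linarith
  · intro x hx
    obtain ⟨A, hA, X₀, hX₀⟩ := D.exists_poly hn hw hν hν1 hκ0 hκ
    obtain ⟨B, hB1, hB⟩ := exists_large A (sub_pos.2 hx)
    refine ⟨max X₀ B, fun X hX => ?_⟩
    obtain ⟨P, hPm, hPd, hPh, hPv, -, -⟩ := hX₀ X ((le_max_left _ _).trans hX)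
    refine ⟨P, hPm, hPd.le, hPh, hPv.trans ?_⟩
    have h1 := hB X ((le_max_right _ _).trans hX)
    have hX0 : 0 < X := by linarith [(le_max_right X₀ B).trans hX]
    calc A * X ^ (-(((n : ℝ) - ν) / (w + 1 - n + ν))) ≤
        X ^ (((n : ℝ) - ν) / (w + 1 - n + ν) - x) * X ^ (-(((n : ℝ) - ν) / (w + 1 - n + ν))) := by
          gcongr
      _ = X ^ (-x) := by rw [← Real.rpow_add hX0]; congr 1; ring

lemma isLUB_UStarInt (hn : 2 ≤ n) (hw : (n : ℝ) ≤ w) (hν : 0 ≤ ν) (hν1 : ν ≤ 1) (hκ0 : 0 ≤ κ)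
    (hκ : n * κ ≤ w * (w + 1 - n)) :
    IsLUB (UStarInt n ζ) (((n : ℝ) - ν) / (w + 1 - n + ν)) := by
  have hnR : (2 : ℝ) ≤ n := by exact_mod_cast hn
  have hK := K_pos n
  have hpos : 0 < ((n : ℝ) - ν) / (w + 1 - n + ν) := by
    apply div_pos <;> linarith
  apply isLUB_of
  · rintro x hx ⟨X₀, hX₀⟩
    obtain ⟨X, hX1, hX, h⟩ := D.no_small hn hw hν hν1 hx (K n) (by linarith) X₀
    obtain ⟨α, f, hf, hfm, hα, hfd, hfh, hle⟩ := hX₀ X hX
    have h1 := h f hfm hfd hfh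
    have hH := one_le_height' hfm.ne_zero
    have hsub : ‖α‖ ≤ 2 := by
      have h1 : ‖(ζ : ℂ) - α‖ ≤ 1 := by
        refine hle.trans ?_
        have h2 : (height f : ℝ)⁻¹ ≤ 1 := inv_le_one_of_one_le₀ hH
        have h3 : X ^ (-x) ≤ 1 := Real.rpow_le_one_of_one_le_of_nonpos hX1 (by linarith)
        calc (height f : ℝ)⁻¹ * X ^ (-x) ≤ 1 * 1 := by gcongr
          _ = 1 := one_mul 1
      have h2 : ‖(ζ : ℂ)‖ ≤ 1 := by rw [Complex.norm_real, Real.norm_eq_abs]; exact D.ζ_le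
      have h3 : ‖α‖ ≤ ‖(ζ : ℂ)‖ + ‖(ζ : ℂ) - α‖ := by
        have := _root_.norm_sub_le (ζ : ℂ) ((ζ : ℂ) - α)
        simpa using this
      linarith
    have h2 := UA.norm_sub_le f hfd (ζ : ℂ) α
      (by rw [Complex.norm_real, Real.norm_eq_abs]; linarith [D.ζ_le]) hsub
    rw [hα, sub_zero, aeval_ofReal, Complex.norm_real, Real.norm_eq_abs] at h2
    have h3 : |aeval ζ f| ≤ K n * X ^ (-x) := by
      calc |aeval ζ f| ≤ K n * height f * ‖(ζ : ℂ) - α‖ := h2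
        _ ≤ K n * height f * ((height f : ℝ)⁻¹ * X ^ (-x)) := by gcongr
        _ = _ := by field_simp
    linarith
  · intro x hx
    obtain ⟨A, hA, X₀, hX₀⟩ := D.exists_poly hn hw hν hν1 hκ0 hκ
    obtain ⟨e, he⟩ : ∃ e, e = ((n : ℝ) - ν) / (w + 1 - n + ν) := ⟨_, rfl⟩
    rw [← he] at hx hX₀ hpos
    obtain ⟨M, hM⟩ : ∃ M : ℝ, M = 2 ^ n * (n + 1) := ⟨_, rfl⟩
    have hM0 : 0 < M := by rw [hM]; positivity
    obtain ⟨B, hB1, hB⟩ := exists_large (8 * A * M * M ^ e) (sub_pos.2 hx)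
    refine ⟨max (M * X₀) B, fun X hX => ?_⟩
    have hX0 : 0 < X := by linarith [(le_max_right (M * X₀) B).trans hX]
    have hXM : X₀ ≤ X / M := by
      rw [le_div_iff₀ hM0, mul_comm]
      exact (le_max_left _ _).trans hX
    obtain ⟨P, hPm, hPd, hPh, hPv, hP', hPs⟩ := hX₀ (X / M) hXM
    obtain ⟨α, hα1, hα2⟩ := exists_root P hPd.le hPm.ne_zero ζ D.ζ_le hP' hPs
    have hint : IsIntegral ℤ α := ⟨P, hPm, by rw [← aeval_def]; exact hα2⟩
    have hdvd : minpoly ℤ α ∣ P := minpoly.isIntegrallyClosed_dvd hint hα2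
    have hfm := minpoly.monic hint
    have hfh := height_monic_factor hfm hPm hPd.le hdvd
    rw [← hM] at hfh
    have hfd : (minpoly ℤ α).natDegree ≤ n := by
      rw [← hPd]; exact natDegree_le_of_dvd hdvd hPm.ne_zero
    have hH := one_le_height' hPm.ne_zero
    have hHf := one_le_height' hfm.ne_zero
    refine ⟨(α : ℂ), minpoly ℤ α, minpoly.irreducible hint, hfm, ?_, hfd, ?_, ?_⟩
    · rw [aeval_ofReal, minpoly.aeval]; simp
    · refine hfh.trans ?_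
      rw [le_div_iff₀ hM0, mul_comm] at hPh
      exact hPh
    · rw [← Complex.ofReal_sub, Complex.norm_real, Real.norm_eq_abs, abs_sub_comm]
      refine hα1.trans ?_
      rw [inv_mul_eq_div, div_le_div_iff₀ (by linarith) (by linarith)]
      have h1 := hB X ((le_max_right _ _).trans hX)
      have h2 : (X / M) ^ (-e) = M ^ e * X ^ (-e) := by
        rw [Real.div_rpow hX0.le hM0.le, Real.rpow_neg hM0.le e]
        field_simp
      rw [h2] at hPv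
      have h3 : 8 * A * M * M ^ e * X ^ (-e) ≤ X ^ (-x) := by
        calc 8 * A * M * M ^ e * X ^ (-e) ≤ X ^ (e - x) * X ^ (-e) := by gcongr
          _ = X ^ (-x) := by rw [← Real.rpow_add hX0]; congr 1; ring
      calc 8 * |aeval ζ P| * height (minpoly ℤ α)
          ≤ 8 * (A * (M ^ e * X ^ (-e))) * (M * height P) := by gcongr
        _ = (8 * A * M * M ^ e * X ^ (-e)) * height P := by ring
        _ ≤ X ^ (-x) * height P := by gcongr

end Data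

end Pool.Agent.Q271.UA
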